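import Mathlib
import Pool.Agent.Results.MP_8173ef_an.PringsheimFails

/-! A parametrised family of double orthonormal systems on the unit square: row `i` uses `N i`
binary digits of the second coordinate, the rows are divided into groups by `G`. -/

set_option autoImplicit false
open MeasureTheory Filter

namespace Pool.Agent.Y259.PF

open Pool.Agent.Results.MP_8173ef_an.PringsheimFails (sq Admissible DoubleOrthonormal rectSum
  HasGrowth PringsheimConverges fl fl_meas fl_div fl_div' int_fl rad rad_abs rad_int hy hy_meas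
  hy_abs hy_int PP PP_nonneg PP_comm PP_sum PP_mul_sum sq_int BB BB_meas BB_mul_ne cell cell_meas
  cell_memLp cell_int Ix enc enc_inj int_sum_mul_sum cell_unique E_sq)

/-- the parameters -/
structure Par where
  N : ℕ → ℕ
  G : ℕ → ℕ
  h : ℕ → ℝ
  hG0 : G 0 = 0
  hG : StrictMono G
  hh : ∀ i, 0 ≤ h i
  hN : ∀ i, N i = 0 → h i = 0

lemma hy_int0 (j u : ℕ) : ∫ y in Set.Icc (0:ℝ) 1, hy j u y = 0 := by
  have : ∀ y, hy j u y = (fun v : ℕ => if v = u then (1:ℝ) else 0) (fl j y) * rad j y := by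
    intro y
    unfold hy
    split_ifs with h <;> simp [h]
  refine (integral_congr_ae (ae_of_all _ this)).trans ?_
  exact rad_int j (fun v : ℕ => if v = u then (1:ℝ) else 0)

/-- Haar type functions of the second coordinate -/
noncomputable def hr (j u : ℕ) (z : ℝ × ℝ) : ℝ := hy j u z.2

lemma hr_meas (j u : ℕ) : Measurable (hr j u) := (hy_meas j u).comp measurable_snd

lemma hr_abs_le (j u : ℕ) (z : ℝ × ℝ) : |hr j u z| ≤ 1 := by
  unfold hr
  rw [hy_abs]
  split_ifs <;> simp

lemma hr_memLp (j u : ℕ) : MemLp (hr j u) 2 sq :=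
  MemLp.of_bound (hr_meas j u).aestronglyMeasurable 1 (ae_of_all _ (fun z => hr_abs_le j u z))

lemma int_one : ∫ _x in Set.Icc (0:ℝ) 1, (1:ℝ) = 1 := by simp

lemma hr_int (j u j' u' : ℕ) (hu : u < 2^j) :
    ∫ z, hr j u z * hr j' u' z ∂sq = if j = j' ∧ u = u' then ((2:ℝ)^j)⁻¹ else 0 := by
  have : ∀ z : ℝ × ℝ, hr j u z * hr j' u' z =
      (fun _ => (1:ℝ)) z.1 * (fun y => hy j u y * hy j' u' y) z.2 := by
    intro z
    simp [hr]
  rw [integral_congr_ae (ae_of_all _ this),
    sq_int (fun _ => (1:ℝ)) (fun y => hy j u y * hy j' u' y), int_one, hy_int j u j' u' hu, one_mul]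

lemma hr_cell_int (j u s : ℕ) : ∫ z, hr j u z * cell s z ∂sq = 0 := by
  have : ∀ z : ℝ × ℝ, hr j u z * cell s z = BB s z.1 * hy j u z.2 := by
    intro z
    simp [hr, cell, mul_comm]
  rw [integral_congr_ae (ae_of_all _ this), sq_int (BB s) (hy j u), hy_int0, mul_zero]

namespace Par

variable (P : Par)

/-- first digit used by row q -/
def sD (q : ℕ) : ℕ := ∑ i ∈ Finset.range q, P.N i
/-- digits used by row q -/
def DD (q : ℕ) : Finset ℕ := Finset.Ico (P.sD q) (P.sD (q+1))
/-- the group of row q -/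
def grp (i : ℕ) : ℕ := Nat.findGreatest (fun g => P.G g ≤ i) i
/-- number of digits of group g -/
def TT (g : ℕ) : ℕ := P.sD (P.G (g+1))
/-- first column of the block of group g -/
def NN (g : ℕ) : ℕ := ∑ h ∈ Finset.range g, 2^(P.TT h)

lemma grp_spec1 (i : ℕ) : P.G (P.grp i) ≤ i := by
  unfold grp
  exact Nat.findGreatest_spec (P := fun g => P.G g ≤ i) (Nat.zero_le i) (by simp [P.hG0])

lemma grp_spec2 (i : ℕ) : i < P.G (P.grp i + 1) := by
  by_contra hc
  push Not at hc
  have h1 : P.grp i + 1 ≤ i := le_trans P.hG.le_apply hc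
  have h2 : P.grp i + 1 ≤ P.grp i := Nat.le_findGreatest h1 hc
  omega

lemma grp_eq (g i : ℕ) (h1 : P.G g ≤ i) (h2 : i < P.G (g+1)) : P.grp i = g := by
  have a1 := P.grp_spec1 i
  have a2 := P.grp_spec2 i
  rcases lt_trichotomy (P.grp i) g with h | h | h
  · have := P.hG.monotone (show P.grp i + 1 ≤ g from h)
    omega
  · exact h
  · have := P.hG.monotone (show g + 1 ≤ P.grp i from h)
    omega

lemma grp_lt (g i : ℕ) (h : i < P.G g) : P.grp i < g := by
  have a1 := P.grp_spec1 i
  by_contra hc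
  push Not at hc
  have := P.hG.monotone hc
  omega

lemma sD_mono : Monotone P.sD := by
  apply monotone_nat_of_le_succ
  intro q
  unfold sD
  rw [Finset.sum_range_succ]
  exact Nat.le_add_right _ _

lemma DD_card (q : ℕ) : (P.DD q).card = P.N q := by
  unfold DD
  rw [Nat.card_Ico]
  unfold sD
  rw [Finset.sum_range_succ]
  simp

lemma DD_disj (q r a : ℕ) (h1 : a ∈ P.DD q) (h2 : a ∈ P.DD r) : q = r := by
  unfold DD at h1 h2
  rw [Finset.mem_Ico] at h1 h2
  rcases lt_trichotomy q r with h | h | h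
  · have := P.sD_mono (show q + 1 ≤ r from h)
    omega
  · exact h
  · have := P.sD_mono (show r + 1 ≤ q from h)
    omega

lemma lt_TT (q a : ℕ) (h1 : a ∈ P.DD q) : a < P.TT (P.grp q) := by
  unfold DD at h1
  rw [Finset.mem_Ico] at h1
  refine lt_of_lt_of_le h1.2 ?_
  unfold TT
  apply P.sD_mono
  exact P.grp_spec2 q

noncomputable def cM (i j : ℕ) : ℝ :=
  Real.sqrt (2^(P.TT (P.grp i))) * (Real.sqrt (P.N i))⁻¹ * ((2:ℝ)^(P.TT (P.grp i) - j))⁻¹

noncomputable def cE (i k : ℕ) (p : ℕ × ℕ) : ℝ :=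
  (Real.sqrt (P.N i))⁻¹ * ((if k = p.2 then 1 else 0) - PP (P.TT (P.grp i) - p.1) k p.2)

noncomputable def mainF (i k : ℕ) (z : ℝ × ℝ) : ℝ :=
  ∑ j ∈ P.DD i, P.cM i j * hr j (k / 2^(P.TT (P.grp i) - j)) z

noncomputable def extraF (i k : ℕ) (z : ℝ × ℝ) : ℝ :=
  ∑ p ∈ P.DD i ×ˢ Finset.range (2^(P.TT (P.grp i))), P.cE i k p *
    cell (enc (Sum.inl (i, p.1, p.2))) z

def inB (i k : ℕ) : Prop :=
  P.N i ≠ 0 ∧ P.NN (P.grp i) ≤ k ∧ k < P.NN (P.grp i) + 2^(P.TT (P.grp i))

open Classical in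
noncomputable def phi (i k : ℕ) (z : ℝ × ℝ) : ℝ :=
  if P.inB i k then P.mainF i (k - P.NN (P.grp i)) z + P.extraF i (k - P.NN (P.grp i)) z
  else cell (enc (Sum.inr (i, k))) z

lemma mainF_memLp (i k : ℕ) : MemLp (P.mainF i k) 2 sq :=
  memLp_finsetSum _ (fun _ _ => (hr_memLp _ _).const_mul _)

lemma extraF_memLp (i k : ℕ) : MemLp (P.extraF i k) 2 sq :=
  memLp_finsetSum _ (fun _ _ => (cell_memLp _).const_mul _)

lemma phi_memLp (i k : ℕ) : MemLp (P.phi i k) 2 sq := by
  classical
  by_cases h : P.inB i k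
  · have : P.phi i k = fun z => P.mainF i (k - P.NN (P.grp i)) z +
        P.extraF i (k - P.NN (P.grp i)) z := by
      ext z; simp [phi, h]
    rw [this]
    exact (P.mainF_memLp _ _).add (P.extraF_memLp _ _)
  · have : P.phi i k = cell (enc (Sum.inr (i, k))) := by
      ext z; simp [phi, h]
    rw [this]
    exact cell_memLp _

lemma main_cell_int (i k s : ℕ) : ∫ z, P.mainF i k z * cell s z ∂sq = 0 := by
  unfold mainF
  simp_rw [Finset.sum_mul]
  have h1 : ∀ j : ℕ, Integrable (fun z => P.cM i j * hr j (k / 2^(P.TT (P.grp i) - j)) z *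
      cell s z) sq := fun j => ((hr_memLp _ _).const_mul _).integrable_mul (cell_memLp _)
  rw [integral_finsetSum _ (fun j _ => h1 j)]
  apply Finset.sum_eq_zero
  intro j _
  simp_rw [mul_assoc]
  rw [integral_const_mul, hr_cell_int, mul_zero]

lemma main_extra_int (i k j l : ℕ) : ∫ z, P.mainF i k z * P.extraF j l z ∂sq = 0 := by
  unfold extraF
  simp_rw [Finset.mul_sum]
  have h1 : ∀ p : ℕ × ℕ, Integrable (fun z => P.mainF i k z * (P.cE j l p *
      cell (enc (Sum.inl (j, p.1, p.2))) z)) sq :=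
    fun p => (P.mainF_memLp _ _).integrable_mul ((cell_memLp _).const_mul _)
  rw [integral_finsetSum _ (fun p _ => h1 p)]
  apply Finset.sum_eq_zero
  intro p _
  simp_rw [mul_left_comm]
  rw [integral_const_mul, main_cell_int, mul_zero]

lemma div_lt (T a k : ℕ) (ha : a < T) (hk : k < 2^T) : k / 2^(T - a) < 2^a := by
  rw [Nat.div_lt_iff_lt_mul (by positivity), ← pow_add]
  have : a + (T - a) = T := by omega
  rw [this]; exact hk

lemma main_int_ne (i k j l : ℕ) (hk : k < 2^(P.TT (P.grp i))) (h : i ≠ j) :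
    ∫ z, P.mainF i k z * P.mainF j l z ∂sq = 0 := by
  unfold mainF
  rw [int_sum_mul_sum _ _ _ _ (fun a => (hr_memLp a _).const_mul _)
    (fun a => (hr_memLp a _).const_mul _)]
  apply Finset.sum_eq_zero
  intro a ha
  apply Finset.sum_eq_zero
  intro b hb
  have hab : a ≠ b := by
    intro e
    subst e
    exact h (P.DD_disj i j a ha hb)
  have : ∀ z, P.cM i a * hr a (k / 2^(P.TT (P.grp i) - a)) z *
      (P.cM j b * hr b (l / 2^(P.TT (P.grp j) - b)) z) =
      (P.cM i a * P.cM j b) * (hr a (k / 2^(P.TT (P.grp i) - a)) z *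
        hr b (l / 2^(P.TT (P.grp j) - b)) z) := by
    intro z; ring
  simp_rw [this]
  rw [integral_const_mul, hr_int _ _ _ _ (div_lt _ _ _ (P.lt_TT i a ha) hk),
    if_neg (fun hh => hab hh.1), mul_zero]

lemma sqN (i : ℕ) : (Real.sqrt (P.N i))⁻¹ * (Real.sqrt (P.N i))⁻¹ = ((P.N i : ℝ))⁻¹ := by
  rw [← mul_inv, Real.mul_self_sqrt (Nat.cast_nonneg _)]

lemma main_int_eq (i k l : ℕ) (hk : k < 2^(P.TT (P.grp i))) :
    ∫ z, P.mainF i k z * P.mainF i l z ∂sq =
      ((P.N i : ℝ))⁻¹ * ∑ a ∈ P.DD i, PP (P.TT (P.grp i) - a) k l := by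
  unfold mainF
  rw [int_sum_mul_sum _ _ _ _ (fun a => (hr_memLp a _).const_mul _)
    (fun a => (hr_memLp a _).const_mul _), Finset.mul_sum]
  apply Finset.sum_congr rfl
  intro a ha
  have haT := P.lt_TT i a ha
  have hu := div_lt _ _ _ haT hk
  have key : ∀ b, ∫ z, P.cM i a * hr a (k / 2^(P.TT (P.grp i) - a)) z *
      (P.cM i b * hr b (l / 2^(P.TT (P.grp i) - b)) z) ∂sq =
      (P.cM i a * P.cM i b) * (if a = b ∧ k / 2^(P.TT (P.grp i) - a) =
        l / 2^(P.TT (P.grp i) - b) then ((2:ℝ)^a)⁻¹ else 0) := by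
    intro b
    have : ∀ z, P.cM i a * hr a (k / 2^(P.TT (P.grp i) - a)) z *
        (P.cM i b * hr b (l / 2^(P.TT (P.grp i) - b)) z) =
        (P.cM i a * P.cM i b) * (hr a (k / 2^(P.TT (P.grp i) - a)) z *
          hr b (l / 2^(P.TT (P.grp i) - b)) z) := by
      intro z; ring
    simp_rw [this]
    rw [integral_const_mul, hr_int _ _ _ _ hu]
  rw [Finset.sum_congr rfl (fun b _ => key b), Finset.sum_eq_single a]
  · unfold PP
    by_cases h : k / 2^(P.TT (P.grp i) - a) = l / 2^(P.TT (P.grp i) - a)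
    · rw [if_pos ⟨rfl, h⟩, if_pos h]
      unfold cM
      have h2 : (2:ℝ)^(P.TT (P.grp i)) = 2^(P.TT (P.grp i) - a) * 2^a := by
        rw [← pow_add]; congr 1; omega
      have h3 : Real.sqrt (2^(P.TT (P.grp i))) * Real.sqrt (2^(P.TT (P.grp i))) =
        2^(P.TT (P.grp i) - a) * 2^a := by
        rw [Real.mul_self_sqrt (by positivity), h2]
      have h4 := P.sqN i
      have h5 : (2:ℝ)^(P.TT (P.grp i) - a) ≠ 0 := by positivity
      have h6 : (2:ℝ)^a ≠ 0 := by positivity
      calc _ = (Real.sqrt (2^(P.TT (P.grp i))) * Real.sqrt (2^(P.TT (P.grp i)))) *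
            ((Real.sqrt (P.N i))⁻¹ * (Real.sqrt (P.N i))⁻¹) *
            (((2:ℝ)^(P.TT (P.grp i) - a))⁻¹ * ((2:ℝ)^(P.TT (P.grp i) - a))⁻¹ * ((2:ℝ)^a)⁻¹) := by
              ring
        _ = ((P.N i : ℝ))⁻¹ * ((2:ℝ)^(P.TT (P.grp i) - a))⁻¹ := by
              rw [h3, h4]
              field_simp
    · rw [if_neg (fun hh => h hh.2), if_neg h, mul_zero, mul_zero]
  · intro b _ hb
    rw [if_neg (fun hh => hb hh.1.symm), mul_zero]
  · intro hh
    exact absurd ha hh

lemma extra_int (i k j l : ℕ) :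
    ∫ z, P.extraF i k z * P.extraF j l z ∂sq = if i = j then
      ∑ p ∈ P.DD i ×ˢ Finset.range (2^(P.TT (P.grp i))), P.cE i k p * P.cE i l p else 0 := by
  unfold extraF
  rw [int_sum_mul_sum _ _ _ _ (fun a => (cell_memLp _).const_mul _)
    (fun a => (cell_memLp _).const_mul _)]
  have key : ∀ p q : ℕ × ℕ, ∫ z, P.cE i k p * cell (enc (Sum.inl (i, p.1, p.2))) z *
      (P.cE j l q * cell (enc (Sum.inl (j, q.1, q.2))) z) ∂sq =
      if i = j ∧ p = q then P.cE i k p * P.cE j l q else 0 := by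
    intro p q
    have : ∀ z, P.cE i k p * cell (enc (Sum.inl (i, p.1, p.2))) z *
      (P.cE j l q * cell (enc (Sum.inl (j, q.1, q.2))) z) = (P.cE i k p * P.cE j l q) *
       (cell (enc (Sum.inl (i, p.1, p.2))) z * cell (enc (Sum.inl (j, q.1, q.2))) z) := by
      intro z; ring
    simp_rw [this]
    rw [integral_const_mul, cell_int]
    simp only [enc_inj]
    have : (Sum.inl (i, p.1, p.2) : Ix) = Sum.inl (j, q.1, q.2) ↔ i = j ∧ p = q := by
      constructor
      · intro h
        simp only [Sum.inl.injEq, Prod.mk.injEq] at h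
        exact ⟨h.1, Prod.ext h.2.1 h.2.2⟩
      · rintro ⟨rfl, rfl⟩; rfl
    simp only [this]
    split_ifs <;> simp
  simp_rw [key]
  split_ifs with h
  · subst h
    apply Finset.sum_congr rfl
    intro p hp
    simp [hp]
  · simp [h]

lemma extra_sum (i k l : ℕ) (hN : P.N i ≠ 0) (hk : k < 2^(P.TT (P.grp i)))
    (hl : l < 2^(P.TT (P.grp i))) :
    ∑ p ∈ P.DD i ×ˢ Finset.range (2^(P.TT (P.grp i))), P.cE i k p * P.cE i l p =
      (if k = l then 1 else 0) - ((P.N i : ℝ))⁻¹ *
        ∑ a ∈ P.DD i, PP (P.TT (P.grp i) - a) k l := by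
  rw [Finset.sum_product]
  have hN' : (P.N i : ℝ) ≠ 0 := by exact_mod_cast hN
  have e2 := P.sqN i
  have key : ∀ a ∈ P.DD i, ∑ m ∈ Finset.range (2^(P.TT (P.grp i))),
      P.cE i k (a, m) * P.cE i l (a, m) =
      ((P.N i : ℝ))⁻¹ * ((if k = l then 1 else 0) - PP (P.TT (P.grp i) - a) k l) := by
    intro a ha
    have haT := P.lt_TT i a ha
    have : ∀ m, P.cE i k (a, m) * P.cE i l (a, m) = ((P.N i : ℝ))⁻¹ *
        ((if k = m then (if l = m then 1 else 0) else 0)
        - (if k = m then PP (P.TT (P.grp i) - a) l m else 0)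
        - (if l = m then PP (P.TT (P.grp i) - a) k m else 0)
        + PP (P.TT (P.grp i) - a) k m * PP (P.TT (P.grp i) - a) l m) := by
      intro m
      unfold cE
      simp only
      rw [← e2]
      split_ifs <;> ring
    simp_rw [this]
    rw [← Finset.mul_sum]
    congr 1
    rw [Finset.sum_add_distrib, Finset.sum_sub_distrib, Finset.sum_sub_distrib,
      PP_mul_sum (P.TT (P.grp i)) _ k l (by omega) hk]
    simp only [Finset.sum_ite_eq, Finset.mem_range, hk, hl, if_true]
    rw [PP_comm _ l k]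
    have : (if l = k then (1:ℝ) else 0) = if k = l then 1 else 0 := by simp only [eq_comm]
    rw [this]
    ring
  rw [Finset.sum_congr rfl key, ← Finset.mul_sum, Finset.sum_sub_distrib, Finset.sum_const,
    DD_card, nsmul_eq_mul]
  field_simp

lemma extra_cell_int (i k j l : ℕ) :
    ∫ z, P.extraF i k z * cell (enc (Sum.inr (j, l))) z ∂sq = 0 := by
  unfold extraF
  simp_rw [Finset.sum_mul]
  have h1 : ∀ p : ℕ × ℕ, Integrable (fun z => P.cE i k p * cell (enc (Sum.inl (i, p.1, p.2))) z *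
      cell (enc (Sum.inr (j, l))) z) sq :=
    fun p => ((cell_memLp _).const_mul _).integrable_mul (cell_memLp _)
  rw [integral_finsetSum _ (fun p _ => h1 p)]
  apply Finset.sum_eq_zero
  intro p _
  simp_rw [mul_assoc]
  rw [integral_const_mul, cell_int, if_neg, mul_zero]
  rw [enc_inj]; simp

lemma phi_int (i k j l : ℕ) :
    ∫ z, P.phi i k z * P.phi j l z ∂sq = if i = j ∧ k = l then 1 else 0 := by
  classical
  by_cases h1 : P.inB i k <;> by_cases h2 : P.inB j l
  · have e : ∀ z, P.phi i k z * P.phi j l z =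
        (P.mainF i (k - P.NN (P.grp i)) z * P.mainF j (l - P.NN (P.grp j)) z +
        P.extraF i (k - P.NN (P.grp i)) z * P.extraF j (l - P.NN (P.grp j)) z) +
        (P.mainF i (k - P.NN (P.grp i)) z * P.extraF j (l - P.NN (P.grp j)) z +
        P.mainF j (l - P.NN (P.grp j)) z * P.extraF i (k - P.NN (P.grp i)) z) := by
      intro z
      simp only [phi, h1, h2, if_true]
      ring
    have i1 : Integrable (fun z => P.mainF i (k - P.NN (P.grp i)) z *
        P.mainF j (l - P.NN (P.grp j)) z) sq :=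
      (P.mainF_memLp _ _).integrable_mul (P.mainF_memLp _ _)
    have i2 : Integrable (fun z => P.extraF i (k - P.NN (P.grp i)) z *
        P.extraF j (l - P.NN (P.grp j)) z) sq :=
      (P.extraF_memLp _ _).integrable_mul (P.extraF_memLp _ _)
    have i3 : Integrable (fun z => P.mainF i (k - P.NN (P.grp i)) z *
        P.extraF j (l - P.NN (P.grp j)) z) sq :=
      (P.mainF_memLp _ _).integrable_mul (P.extraF_memLp _ _)
    have i4 : Integrable (fun z => P.mainF j (l - P.NN (P.grp j)) z *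
        P.extraF i (k - P.NN (P.grp i)) z) sq :=
      (P.mainF_memLp _ _).integrable_mul (P.extraF_memLp _ _)
    have i12 : Integrable (fun z => P.mainF i (k - P.NN (P.grp i)) z *
        P.mainF j (l - P.NN (P.grp j)) z + P.extraF i (k - P.NN (P.grp i)) z *
        P.extraF j (l - P.NN (P.grp j)) z) sq := i1.add i2
    have i34 : Integrable (fun z => P.mainF i (k - P.NN (P.grp i)) z *
        P.extraF j (l - P.NN (P.grp j)) z + P.mainF j (l - P.NN (P.grp j)) z *
        P.extraF i (k - P.NN (P.grp i)) z) sq := i3.add i4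
    rw [integral_congr_ae (ae_of_all _ e), integral_add i12 i34,
      integral_add i1 i2, integral_add i3 i4, extra_int, main_extra_int, main_extra_int]
    obtain ⟨hn1, hk1, hk2⟩ := h1
    obtain ⟨hn2, hl1, hl2⟩ := h2
    have hk : k - P.NN (P.grp i) < 2^(P.TT (P.grp i)) := by omega
    by_cases hij : i = j
    · subst hij
      have hl : l - P.NN (P.grp i) < 2^(P.TT (P.grp i)) := by omega
      rw [if_pos rfl, P.main_int_eq i _ _ hk, P.extra_sum i _ _ hn1 hk hl]
      have : (k - P.NN (P.grp i) = l - P.NN (P.grp i)) ↔ k = l := by omega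
      simp [this]
    · rw [if_neg hij, P.main_int_ne i _ j _ hk hij, if_neg (fun hh => hij hh.1)]
      simp
  · have e : ∀ z, P.phi i k z * P.phi j l z =
        P.mainF i (k - P.NN (P.grp i)) z * cell (enc (Sum.inr (j, l))) z +
        P.extraF i (k - P.NN (P.grp i)) z * cell (enc (Sum.inr (j, l))) z := by
      intro z
      simp only [phi, h1, h2, if_true, if_false]
      ring
    have i1 : Integrable (fun z => P.mainF i (k - P.NN (P.grp i)) z *
        cell (enc (Sum.inr (j, l))) z) sq := (P.mainF_memLp _ _).integrable_mul (cell_memLp _)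
    have i2 : Integrable (fun z => P.extraF i (k - P.NN (P.grp i)) z *
        cell (enc (Sum.inr (j, l))) z) sq := (P.extraF_memLp _ _).integrable_mul (cell_memLp _)
    rw [integral_congr_ae (ae_of_all _ e), if_neg (by rintro ⟨rfl, rfl⟩; exact h2 h1),
      integral_add i1 i2, main_cell_int, extra_cell_int, add_zero]
  · have e : ∀ z, P.phi i k z * P.phi j l z =
        P.mainF j (l - P.NN (P.grp j)) z * cell (enc (Sum.inr (i, k))) z +
        P.extraF j (l - P.NN (P.grp j)) z * cell (enc (Sum.inr (i, k))) z := by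
      intro z
      simp only [phi, h1, h2, if_true, if_false]
      ring
    have i1 : Integrable (fun z => P.mainF j (l - P.NN (P.grp j)) z *
        cell (enc (Sum.inr (i, k))) z) sq := (P.mainF_memLp _ _).integrable_mul (cell_memLp _)
    have i2 : Integrable (fun z => P.extraF j (l - P.NN (P.grp j)) z *
        cell (enc (Sum.inr (i, k))) z) sq := (P.extraF_memLp _ _).integrable_mul (cell_memLp _)
    rw [integral_congr_ae (ae_of_all _ e), if_neg (by rintro ⟨rfl, rfl⟩; exact h1 h2),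
      integral_add i1 i2, main_cell_int, extra_cell_int, add_zero]
  · have e : ∀ z, P.phi i k z * P.phi j l z =
        cell (enc (Sum.inr (i, k))) z * cell (enc (Sum.inr (j, l))) z := by
      intro z
      simp only [phi, h1, h2, if_false]
    rw [integral_congr_ae (ae_of_all _ e), cell_int]
    simp only [enc_inj, Sum.inr.injEq, Prod.mk.injEq]

theorem ortho : DoubleOrthonormal P.phi := ⟨P.phi_memLp, P.phi_int⟩

end Par

end Pool.Agent.Y259.PF
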