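import Mathlib
import Pool.Agent.Y259.PF.Sys

/-! Growth of the rectangular sums. -/

set_option autoImplicit false
open MeasureTheory Filter

namespace Pool.Agent.Y259.PF

open Pool.Agent.Results.MP_8173ef_an.PringsheimFails (sq Admissible DoubleOrthonormal rectSum
  HasGrowth PringsheimConverges fl fl_meas fl_div fl_div' int_fl rad rad_abs rad_int hy hy_meas
  hy_abs hy_int PP PP_nonneg PP_comm PP_sum PP_mul_sum sq_int BB BB_meas BB_mul_ne cell cell_meas
  cell_memLp cell_int Ix enc enc_inj int_sum_mul_sum cell_unique E_sq)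

namespace Par

variable (P : Par)

open Classical in
/-- the oscillating part of `phi` -/
noncomputable def ph1 (i k : ℕ) (z : ℝ × ℝ) : ℝ :=
  if P.inB i k then P.mainF i (k - P.NN (P.grp i)) z else 0

open Classical in
/-- the part of `phi` carried by the cells -/
noncomputable def ph2 (i k : ℕ) (z : ℝ × ℝ) : ℝ :=
  if P.inB i k then P.extraF i (k - P.NN (P.grp i)) z else cell (enc (Sum.inr (i, k))) z

lemma phi_eq (i k : ℕ) (z : ℝ × ℝ) : P.phi i k z = P.ph1 i k z + P.ph2 i k z := by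
  unfold phi ph1 ph2
  split_ifs <;> simp

lemma ph2_inB (z : ℝ × ℝ) : ∃ g0 : ℕ, ∀ i k, P.inB i k → g0 ≤ P.grp i → P.ph2 i k z = 0 := by
  classical
  by_cases hs : ∃ t : Ix, cell (enc t) z ≠ 0
  · obtain ⟨t, ht⟩ := hs
    have huniq : ∀ t' : Ix, t' ≠ t → cell (enc t') z = 0 := by
      intro t' hne
      by_contra hc
      exact hne ((enc_inj _ _).1 (cell_unique _ _ z hc ht))
    rcases t with ⟨q, j, m⟩ | ⟨q, l⟩
    · refine ⟨P.grp q + 1, fun i k hb hg => ?_⟩
      unfold ph2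
      rw [if_pos hb]
      unfold extraF
      apply Finset.sum_eq_zero
      intro p _
      rw [huniq, mul_zero]
      intro he
      simp only [Sum.inl.injEq, Prod.mk.injEq] at he
      rw [he.1] at hg
      omega
    · refine ⟨0, fun i k hb _ => ?_⟩
      unfold ph2
      rw [if_pos hb]
      unfold extraF
      apply Finset.sum_eq_zero
      intro p _
      rw [huniq _ (by simp), mul_zero]
  · push Not at hs
    refine ⟨0, fun i k hb _ => ?_⟩
    unfold ph2
    rw [if_pos hb]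
    unfold extraF
    apply Finset.sum_eq_zero
    intro p _
    rw [hs, mul_zero]

lemma ph2_finite (z : ℝ × ℝ) :
    ∃ W : Finset (ℕ × ℕ), ∀ i k, (i, k) ∉ W → P.ph2 i k z = 0 := by
  classical
  by_cases hs : ∃ t : Ix, cell (enc t) z ≠ 0
  · obtain ⟨t, ht⟩ := hs
    have huniq : ∀ t' : Ix, t' ≠ t → cell (enc t') z = 0 := by
      intro t' hne
      by_contra hc
      exact hne ((enc_inj _ _).1 (cell_unique _ _ z hc ht))
    rcases t with ⟨q, j, m⟩ | ⟨q, l⟩
    · refine ⟨{q} ×ˢ Finset.Ico (P.NN (P.grp q)) (P.NN (P.grp q) + 2^(P.TT (P.grp q))), ?_⟩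
      intro i k hik
      unfold ph2
      split_ifs with hb
      · unfold extraF
        apply Finset.sum_eq_zero
        intro p _
        rw [huniq, mul_zero]
        intro he
        simp only [Sum.inl.injEq, Prod.mk.injEq] at he
        apply hik
        obtain ⟨he1, _⟩ := he
        subst he1
        simp only [Finset.mem_product, Finset.mem_singleton, Finset.mem_Ico, true_and]
        exact hb.2
      · exact huniq _ (by simp)
    · refine ⟨{(q, l)}, ?_⟩
      intro i k hik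
      unfold ph2
      split_ifs with hb
      · unfold extraF
        apply Finset.sum_eq_zero
        intro p _
        rw [huniq _ (by simp), mul_zero]
      · apply huniq
        intro he
        apply hik
        simpa using he
  · push Not at hs
    refine ⟨∅, ?_⟩
    intro i k _
    unfold ph2
    split_ifs with hb
    · unfold extraF
      apply Finset.sum_eq_zero
      intro p _
      rw [hs, mul_zero]
    · exact hs _

/-- sums over `i < m`, `k < n` -/
noncomputable def S (a : ℕ → ℕ → ℝ) (m n : ℕ) (z : ℝ × ℝ) : ℝ :=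
  ∑ i ∈ Finset.range m, ∑ k ∈ Finset.range n, a i k * P.phi i k z

lemma rest_bound (a : ℕ → ℕ → ℝ) (z : ℝ × ℝ) :
    ∃ C, 0 ≤ C ∧ ∀ m n, |∑ i ∈ Finset.range m, ∑ k ∈ Finset.range n, a i k * P.ph2 i k z| ≤ C := by
  obtain ⟨W, hW⟩ := P.ph2_finite z
  refine ⟨∑ p ∈ W, |a p.1 p.2 * P.ph2 p.1 p.2 z|, Finset.sum_nonneg (fun _ _ => abs_nonneg _), ?_⟩
  intro m n
  rw [← Finset.sum_product']
  refine (Finset.abs_sum_le_sum_abs _ _).trans ?_
  have : ∑ p ∈ Finset.range m ×ˢ Finset.range n, |a p.1 p.2 * P.ph2 p.1 p.2 z| =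
      ∑ p ∈ (Finset.range m ×ˢ Finset.range n).filter (fun p => p ∈ W),
        |a p.1 p.2 * P.ph2 p.1 p.2 z| := by
    rw [Finset.sum_filter_of_ne]
    intro p _ hp
    by_contra hc
    apply hp
    rw [hW p.1 p.2 hc]; simp
  rw [this]
  apply Finset.sum_le_sum_of_subset_of_nonneg
  · intro p hp
    exact (Finset.mem_filter.1 hp).2
  · intro p _ _
    exact abs_nonneg _

/-- majorant for row i, as a function of the level-T cell index -/
noncomputable def GG (i : ℕ) (b : ℕ → ℝ) (w : ℕ) : ℝ :=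
  Real.sqrt (2^(P.TT (P.grp i))) * (Real.sqrt (P.N i))⁻¹ *
    ∑ j ∈ P.DD i, ∑ k ∈ Finset.range (2^(P.TT (P.grp i))), |b k| * PP (P.TT (P.grp i) - j) k w

lemma GG_nonneg (i : ℕ) (b : ℕ → ℝ) (w : ℕ) : 0 ≤ P.GG i b w := by
  unfold GG
  refine mul_nonneg (by positivity) (Finset.sum_nonneg (fun j _ => Finset.sum_nonneg (fun k _ => ?_)))
  exact mul_nonneg (abs_nonneg _) (PP_nonneg _ _ _)

lemma GG_zero (i : ℕ) (b : ℕ → ℝ) (w : ℕ) (h : P.N i = 0) : P.GG i b w = 0 := by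
  unfold GG
  simp [h]

lemma mainF_abs_le (i k : ℕ) (z : ℝ × ℝ) :
    |P.mainF i k z| ≤ Real.sqrt (2^(P.TT (P.grp i))) * (Real.sqrt (P.N i))⁻¹ *
      ∑ j ∈ P.DD i, PP (P.TT (P.grp i) - j) k (fl (P.TT (P.grp i)) z.2) := by
  unfold mainF
  refine (Finset.abs_sum_le_sum_abs _ _).trans ?_
  rw [Finset.mul_sum]
  apply Finset.sum_le_sum
  intro j hj
  have hjT := P.lt_TT i j hj
  rw [abs_mul, abs_of_nonneg (show 0 ≤ P.cM i j by unfold cM; positivity)]
  unfold hr
  rw [hy_abs]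
  unfold PP cM
  rw [fl_div' j (P.TT (P.grp i)) hjT.le]
  simp only [eq_comm]
  split_ifs
  · simp
  · simp

lemma GG_sq (i : ℕ) (b : ℕ → ℝ) :
    ∑ w ∈ Finset.range (2^(P.TT (P.grp i))), (P.GG i b w)^2 ≤
      2^(P.TT (P.grp i)) * P.N i * ∑ k ∈ Finset.range (2^(P.TT (P.grp i))), (b k)^2 := by
  by_cases hN : P.N i = 0
  · simp [P.GG_zero i b _ hN, hN]
  have hN' : (0:ℝ) < P.N i := by exact_mod_cast Nat.pos_of_ne_zero hN
  have h1 : ∀ w, (P.GG i b w)^2 ≤ 2^(P.TT (P.grp i)) *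
      ∑ j ∈ P.DD i, (∑ k ∈ Finset.range (2^(P.TT (P.grp i))), |b k| *
        PP (P.TT (P.grp i) - j) k w)^2 := by
    intro w
    unfold GG
    rw [mul_pow, mul_pow, Real.sq_sqrt (by positivity), inv_pow, Real.sq_sqrt hN'.le]
    have := sq_sum_le_card_mul_sum_sq (s := P.DD i)
      (f := fun j => ∑ k ∈ Finset.range (2^(P.TT (P.grp i))), |b k| * PP (P.TT (P.grp i) - j) k w)
    rw [DD_card] at this
    calc _ ≤ 2^(P.TT (P.grp i)) * ((P.N i : ℝ))⁻¹ * ((P.N i : ℝ) * ∑ j ∈ P.DD i,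
          (∑ k ∈ Finset.range (2^(P.TT (P.grp i))), |b k| * PP (P.TT (P.grp i) - j) k w)^2) := by
            gcongr
      _ = _ := by field_simp
  refine (Finset.sum_le_sum (fun w _ => h1 w)).trans ?_
  rw [← Finset.mul_sum, Finset.sum_comm, mul_assoc]
  gcongr
  calc ∑ j ∈ P.DD i, ∑ w ∈ Finset.range (2^(P.TT (P.grp i))),
        (∑ k ∈ Finset.range (2^(P.TT (P.grp i))), |b k| * PP (P.TT (P.grp i) - j) k w)^2
      ≤ ∑ j ∈ P.DD i, ∑ k ∈ Finset.range (2^(P.TT (P.grp i))), (b k)^2 := by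
        apply Finset.sum_le_sum
        intro j _
        exact E_sq _ _ (by omega) b
    _ = _ := by rw [Finset.sum_const, DD_card, nsmul_eq_mul]

noncomputable def QQ (a : ℕ → ℕ → ℝ) (i : ℕ) (z : ℝ × ℝ) : ℝ :=
  P.GG i (fun k => a i (P.NN (P.grp i) + k)) (fl (P.TT (P.grp i)) z.2)

lemma QQ_nonneg (a : ℕ → ℕ → ℝ) (i : ℕ) (z : ℝ × ℝ) : 0 ≤ P.QQ a i z := P.GG_nonneg _ _ _

lemma QQ_meas (a : ℕ → ℕ → ℝ) (i : ℕ) : Measurable (P.QQ a i) :=
  (measurable_of_countable (P.GG i (fun k => a i (P.NN (P.grp i) + k)))).comp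
    ((fl_meas _).comp measurable_snd)

lemma QQ_int (a : ℕ → ℕ → ℝ) (i : ℕ) :
    ∫ z, (P.QQ a i z)^2 ∂sq ≤ P.N i * ∑ k ∈ Finset.Ico (P.NN (P.grp i))
      (P.NN (P.grp i) + 2^(P.TT (P.grp i))), (a i k)^2 := by
  have e : ∀ z : ℝ × ℝ, (P.QQ a i z)^2 = (fun _ => (1:ℝ)) z.1 *
      (fun y => (fun w => (P.GG i (fun k => a i (P.NN (P.grp i) + k)) w)^2)
        (fl (P.TT (P.grp i)) y)) z.2 := by
    intro z
    simp [QQ]
  rw [integral_congr_ae (ae_of_all _ e), sq_int (fun _ => (1:ℝ))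
    (fun y => (fun w => (P.GG i (fun k => a i (P.NN (P.grp i) + k)) w)^2)
      (fl (P.TT (P.grp i)) y)), int_one,
    int_fl (P.TT (P.grp i)) (fun w => (P.GG i (fun k => a i (P.NN (P.grp i) + k)) w)^2), one_mul]
  have h := P.GG_sq i (fun k => a i (P.NN (P.grp i) + k))
  rw [Finset.sum_Ico_eq_sum_range]
  simp only [Nat.add_sub_cancel_left]
  calc (((2:ℝ)^(P.TT (P.grp i)))⁻¹ * ∑ v ∈ Finset.range (2^(P.TT (P.grp i))),
        (P.GG i (fun k => a i (P.NN (P.grp i) + k)) v)^2)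
      ≤ (((2:ℝ)^(P.TT (P.grp i)))⁻¹ * (2^(P.TT (P.grp i)) * P.N i *
        ∑ k ∈ Finset.range (2^(P.TT (P.grp i))), (a i (P.NN (P.grp i) + k))^2)) := by gcongr
    _ = _ := by field_simp

lemma QQ_integrable (a : ℕ → ℕ → ℝ) (i : ℕ) : Integrable (fun z => (P.QQ a i z)^2) sq := by
  have : ∃ C, ∀ z ∈ Set.Icc (0:ℝ) 1 ×ˢ Set.Icc (0:ℝ) 1, |P.QQ a i z| ≤ C := by
    refine ⟨∑ w ∈ Finset.range (2^(P.TT (P.grp i)) + 1),
      P.GG i (fun k => a i (P.NN (P.grp i) + k)) w, ?_⟩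
    intro z hz
    have h2 := hz.2
    have hfl : fl (P.TT (P.grp i)) z.2 ≤ 2^(P.TT (P.grp i)) := by
      unfold fl
      apply Nat.floor_le_of_le
      push_cast
      have h3 : z.2 ≤ 1 := h2.2
      have h4 : (0:ℝ) < 2^(P.TT (P.grp i)) := by positivity
      nlinarith
    rw [abs_of_nonneg (P.QQ_nonneg _ _ _)]
    unfold QQ
    exact Finset.single_le_sum (f := fun w => P.GG i (fun k => a i (P.NN (P.grp i) + k)) w)
      (fun w _ => P.GG_nonneg _ _ _) (Finset.mem_range.2 (by omega))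
  obtain ⟨C, hC⟩ := this
  refine Integrable.of_bound ((P.QQ_meas a i).pow_const 2).aestronglyMeasurable (C^2) ?_
  unfold Pool.Agent.Results.MP_8173ef_an.PringsheimFails.sq
  rw [ae_restrict_iff' (measurableSet_Icc.prod measurableSet_Icc)]
  refine ae_of_all _ (fun z hz => ?_)
  have h := hC z hz
  rw [Real.norm_eq_abs, abs_pow]
  gcongr

lemma row_bound (a : ℕ → ℕ → ℝ) (i n : ℕ) (z : ℝ × ℝ) :
    |∑ k ∈ Finset.range n, a i k * P.ph1 i k z| ≤ P.QQ a i z := by
  classical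
  refine (Finset.abs_sum_le_sum_abs _ _).trans ?_
  have h2 : ∀ k, |a i k * P.ph1 i k z| =
      if P.inB i k then |a i k| * |P.mainF i (k - P.NN (P.grp i)) z| else 0 := by
    intro k
    unfold ph1
    split_ifs
    · rw [abs_mul]
    · simp
  simp_rw [h2]
  rw [← Finset.sum_filter]
  have h3 : ∑ k ∈ (Finset.range n).filter (fun k => P.inB i k),
      |a i k| * |P.mainF i (k - P.NN (P.grp i)) z| ≤
      ∑ k ∈ Finset.Ico (P.NN (P.grp i)) (P.NN (P.grp i) + 2^(P.TT (P.grp i))),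
        |a i k| * |P.mainF i (k - P.NN (P.grp i)) z| := by
    apply Finset.sum_le_sum_of_subset_of_nonneg
    · intro k hk
      rw [Finset.mem_filter] at hk
      rw [Finset.mem_Ico]
      exact hk.2.2
    · intro k _ _; positivity
  refine h3.trans ?_
  rw [Finset.sum_Ico_eq_sum_range]
  simp only [Nat.add_sub_cancel_left]
  unfold QQ GG
  rw [Finset.sum_comm, Finset.mul_sum]
  apply Finset.sum_le_sum
  intro k _
  refine (mul_le_mul_of_nonneg_left (P.mainF_abs_le i k z) (abs_nonneg _)).trans ?_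
  rw [← Finset.mul_sum]
  apply le_of_eq
  ring

theorem growth (a : ℕ → ℕ → ℝ) (ha : Summable (fun p : ℕ × ℕ => (a p.1 p.2)^2)) :
    ∀ᵐ z ∂sq, ∃ C, 0 ≤ C ∧ ∀ m n,
      |P.S a m n z| ≤ C * (1 + Real.sqrt (∑ i ∈ Finset.range m, (P.N i : ℝ))) := by
  have hrow : Summable (fun i => ∑ k ∈ Finset.Ico (P.NN (P.grp i))
      (P.NN (P.grp i) + 2^(P.TT (P.grp i))), (a i k)^2) := by
    have h1 := (summable_prod_of_nonneg (fun p => sq_nonneg _)).1 ha
    refine Summable.of_nonneg_of_le (fun i => Finset.sum_nonneg (fun k _ => sq_nonneg _)) (fun i => ?_) h1.2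
    exact (h1.1 i).sum_le_tsum _ (fun k _ => sq_nonneg _)
  have hfin : ∫⁻ z, ∑' i, ENNReal.ofReal (((P.N i : ℝ))⁻¹ * (P.QQ a i z)^2) ∂sq ≠ ⊤ := by
    rw [lintegral_tsum (fun i => ((((P.QQ_meas a i).pow_const 2).const_mul _).ennreal_ofReal).aemeasurable)]
    have h2 : ∀ i, ∫⁻ z, ENNReal.ofReal (((P.N i : ℝ))⁻¹ * (P.QQ a i z)^2) ∂sq ≤
        ENNReal.ofReal (∑ k ∈ Finset.Ico (P.NN (P.grp i))
          (P.NN (P.grp i) + 2^(P.TT (P.grp i))), (a i k)^2) := by
      intro i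
      rw [← ofReal_integral_eq_lintegral_ofReal ((P.QQ_integrable a i).const_mul _)
        (ae_of_all _ (fun z => by positivity))]
      apply ENNReal.ofReal_le_ofReal
      rw [integral_const_mul]
      have h3 := P.QQ_int a i
      by_cases hN : P.N i = 0
      · rw [hN]
        simp only [Nat.cast_zero, inv_zero, zero_mul]
        positivity
      have h4 : (0:ℝ) < P.N i := by exact_mod_cast Nat.pos_of_ne_zero hN
      rw [inv_mul_le_iff₀ h4]
      exact h3
    refine ne_top_of_le_ne_top ?_ (ENNReal.tsum_le_tsum h2)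
    exact hrow.tsum_ofReal_ne_top
  have hae := ae_lt_top (Measurable.tsum
    (fun i => (((P.QQ_meas a i).pow_const 2).const_mul (((P.N i : ℝ))⁻¹)).ennreal_ofReal)) hfin
  filter_upwards [hae] with z hz
  obtain ⟨C, hC0, hC⟩ := P.rest_bound a z
  set B := (∑' i, ENNReal.ofReal (((P.N i : ℝ))⁻¹ * (P.QQ a i z)^2)).toReal with hB
  have hB0 : 0 ≤ B := ENNReal.toReal_nonneg
  refine ⟨C + Real.sqrt B, by positivity, ?_⟩
  intro m n
  have hBm : ∑ i ∈ Finset.range m, ((P.N i : ℝ))⁻¹ * (P.QQ a i z)^2 ≤ B := by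
    rw [hB]
    rw [← ENNReal.ofReal_le_iff_le_toReal hz.ne, ENNReal.ofReal_sum_of_nonneg
      (fun i _ => by positivity)]
    exact ENNReal.sum_le_tsum _
  have hsplit : P.S a m n z = (∑ i ∈ Finset.range m, ∑ k ∈ Finset.range n, a i k * P.ph1 i k z) +
      ∑ i ∈ Finset.range m, ∑ k ∈ Finset.range n, a i k * P.ph2 i k z := by
    unfold S
    rw [← Finset.sum_add_distrib]
    refine Finset.sum_congr rfl (fun i _ => ?_)
    rw [← Finset.sum_add_distrib]
    refine Finset.sum_congr rfl (fun k _ => ?_)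
    rw [phi_eq, mul_add]
  have h1 : |∑ i ∈ Finset.range m, ∑ k ∈ Finset.range n, a i k * P.ph1 i k z| ≤
      ∑ i ∈ Finset.range m, P.QQ a i z := by
    refine (Finset.abs_sum_le_sum_abs _ _).trans ?_
    exact Finset.sum_le_sum (fun i _ => P.row_bound a i n z)
  have h2 : (∑ i ∈ Finset.range m, P.QQ a i z)^2 ≤ (∑ i ∈ Finset.range m, (P.N i : ℝ)) * B := by
    have := Finset.sum_mul_sq_le_sq_mul_sq (Finset.range m) (fun i => Real.sqrt (P.N i))
      (fun i => (Real.sqrt (P.N i))⁻¹ * P.QQ a i z)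
    have e1 : ∀ i, Real.sqrt (P.N i) * ((Real.sqrt (P.N i))⁻¹ * P.QQ a i z) = P.QQ a i z := by
      intro i
      by_cases hN : P.N i = 0
      · unfold QQ
        rw [P.GG_zero _ _ _ hN]
        simp
      · have : Real.sqrt (P.N i) ≠ 0 := by
          rw [Real.sqrt_ne_zero (Nat.cast_nonneg _)]
          exact_mod_cast hN
        field_simp
    have e2 : ∀ i, (Real.sqrt (P.N i))^2 = P.N i := by
      intro i
      exact Real.sq_sqrt (Nat.cast_nonneg _)
    have e3 : ∀ i, ((Real.sqrt (P.N i))⁻¹ * P.QQ a i z)^2 = ((P.N i : ℝ))⁻¹ * (P.QQ a i z)^2 := by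
      intro i; rw [mul_pow, inv_pow, e2]
    simp_rw [e1, e2, e3] at this
    refine this.trans ?_
    gcongr
  have h4 : ∑ i ∈ Finset.range m, P.QQ a i z ≤
      Real.sqrt (∑ i ∈ Finset.range m, (P.N i : ℝ)) * Real.sqrt B := by
    rw [← Real.sqrt_mul (by positivity)]
    exact Real.le_sqrt_of_sq_le h2
  have h5 := hC m n
  have h6 : 0 ≤ Real.sqrt (∑ i ∈ Finset.range m, (P.N i : ℝ)) := Real.sqrt_nonneg _
  rw [hsplit]
  refine (abs_add_le _ _).trans ?_
  have h7 : 0 ≤ Real.sqrt B := Real.sqrt_nonneg _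
  nlinarith [mul_nonneg hC0 h6]

end Par

end Pool.Agent.Y259.PF
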