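import Mathlib
import Pool.Agent.Y259.PF.Grow

/-! Almost everywhere unbounded divergence. -/

set_option autoImplicit false
open MeasureTheory Filter

namespace Pool.Agent.Y259.PF

open Pool.Agent.Results.MP_8173ef_an.PringsheimFails (sq Admissible DoubleOrthonormal rectSum
  HasGrowth PringsheimConverges fl fl_meas fl_div fl_div' int_fl rad rad_abs rad_int hy hy_meas
  hy_abs hy_int PP PP_nonneg PP_comm PP_sum PP_mul_sum sq_int BB BB_meas BB_mul_ne cell cell_meas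
  cell_memLp cell_int Ix enc enc_inj int_sum_mul_sum cell_unique E_sq xx sum_range_mul count_block
  xx_abs_le)

/-- a function with period `2^m` is orthogonal to `xx (m+1) + 1/4` -/
lemma sum_xx_per (T m : ℕ) (hm : m + 1 ≤ T) (F : ℕ → ℝ) (hF : ∀ w, F (w + 2^m) = F w) :
    ∑ w ∈ Finset.range (2^T), (xx (m+1) w + 1/4) * F w = 0 := by
  obtain ⟨d, rfl⟩ : ∃ d, T = d + (m+1) := ⟨T - (m+1), by omega⟩
  rw [pow_add, sum_range_mul]
  apply Finset.sum_eq_zero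
  intro u _
  have h1 : 2^(m+1) = 2 * 2^m := by rw [pow_succ]; ring
  have e1 : Finset.range (2^(m+1)) = Finset.range (2^m + 2^m) := by rw [h1]; congr 1; ring
  rw [e1, Finset.sum_range_add, ← Finset.sum_add_distrib]
  apply Finset.sum_eq_zero
  intro v hv
  have hp : 0 < 2^m := by positivity
  have hv' := Finset.mem_range.1 hv
  have a1 : xx (m+1) (u*2^(m+1)+v) = (v:ℝ) * ((2:ℝ)^(m+1))⁻¹ := by
    unfold xx
    have b1 : (u*2^(m+1)+v) % 2^(m+1) = v := by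
      rw [Nat.mul_add_mod_self_right]
      apply Nat.mod_eq_of_lt
      omega
    have b2 : (u*2^(m+1)+v) / 2^(m+1-1) % 2 = 0 := by
      have : u*2^(m+1)+v = v + (2*u) * 2^m := by rw [pow_succ]; ring
      rw [Nat.add_sub_cancel, this, Nat.add_mul_div_right _ _ hp, Nat.div_eq_of_lt hv']
      omega
    rw [b1, if_pos b2, mul_one]
  have a2 : xx (m+1) (u*2^(m+1)+(2^m+v)) = - (((v:ℝ) + 2^m) * ((2:ℝ)^(m+1))⁻¹) := by
    unfold xx
    have b1 : (u*2^(m+1)+(2^m+v)) % 2^(m+1) = 2^m + v := by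
      rw [Nat.mul_add_mod_self_right]
      apply Nat.mod_eq_of_lt
      omega
    have b2 : ¬ ((u*2^(m+1)+(2^m+v)) / 2^(m+1-1) % 2 = 0) := by
      have : u*2^(m+1)+(2^m+v) = v + (2*u+1) * 2^m := by rw [pow_succ]; ring
      rw [Nat.add_sub_cancel, this, Nat.add_mul_div_right _ _ hp, Nat.div_eq_of_lt hv']
      omega
    rw [b1, if_neg b2]
    push_cast
    ring
  have a3 : F (u*2^(m+1)+(2^m+v)) = F (u*2^(m+1)+v) := by
    rw [← hF (u*2^(m+1)+v)]
    congr 1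
    ring
  rw [a3, a1, a2, ← add_mul]
  have a4 : (v:ℝ) * ((2:ℝ)^(m+1))⁻¹ + 1/4 + (-(((v:ℝ) + 2^m) * ((2:ℝ)^(m+1))⁻¹) + 1/4) = 0 := by
    rw [pow_succ]
    field_simp
    ring
  rw [a4, zero_mul]

lemma xx_per (n m w : ℕ) (hn : 1 ≤ n) (hm : n ≤ m) : xx n (w + 2^m) = xx n w := by
  unfold xx
  obtain ⟨n, rfl⟩ : ∃ n', n = n' + 1 := ⟨n - 1, by omega⟩
  obtain ⟨d, rfl⟩ : ∃ d, m = n + 1 + d := ⟨m - (n+1), by omega⟩
  have b1 : (w + 2^(n+1+d)) % 2^(n+1) = w % 2^(n+1) := by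
    rw [pow_add 2 (n+1) d, Nat.add_mul_mod_self_left]
  have b2 : (w + 2^(n+1+d)) / 2^(n+1-1) % 2 = w / 2^(n+1-1) % 2 := by
    have : 2^(n+1+d) = (2 * 2^d) * 2^n := by rw [pow_add, pow_succ]; ring
    rw [Nat.add_sub_cancel, this, Nat.add_mul_div_right _ _ (by positivity)]
    omega
  rw [b1, b2]

lemma xx_orth (T n n' : ℕ) (h1 : 1 ≤ n') (h2 : n' < n) (h3 : n ≤ T) :
    ∑ w ∈ Finset.range (2^T), (xx n w + 1/4) * (xx n' w + 1/4) = 0 := by
  obtain ⟨m, rfl⟩ : ∃ m, n = m + 1 := ⟨n - 1, by omega⟩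
  exact sum_xx_per T m h3 (fun w => xx n' w + 1/4) (fun w => by
    rw [xx_per n' m w h1 (by omega)])

lemma xx_orth' (T n n' : ℕ) (h0 : 1 ≤ n) (h1 : 1 ≤ n') (hne : n ≠ n') (h3 : n ≤ T)
    (h4 : n' ≤ T) : ∑ w ∈ Finset.range (2^T), (xx n w + 1/4) * (xx n' w + 1/4) = 0 := by
  rcases lt_or_gt_of_ne hne with h | h
  · have := xx_orth T n' n h0 h h4
    rw [← this]
    exact Finset.sum_congr rfl fun w _ => mul_comm _ _
  · exact xx_orth T n n' h1 h h3

lemma xx_sq_le (n w : ℕ) : (xx n w + 1/4) * (xx n w + 1/4) ≤ 2 := by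
  have := abs_le.1 (xx_abs_le n w)
  nlinarith [this.1, this.2]

lemma second_moment {ι : Type} (S : Finset ι) (d : ι → ℕ) (c : ι → ℝ) (T : ℕ)
    (hd : ∀ p ∈ S, d p < T) (hinj : ∀ p ∈ S, ∀ q ∈ S, d p = d q → p = q) :
    ∫ z, (∑ p ∈ S, c p * (xx (T - d p) (fl T z.2) + 1/4))^2 ∂sq ≤ 2 * ∑ p ∈ S, c p ^ 2 := by
  have e : ∀ z : ℝ × ℝ, (∑ p ∈ S, c p * (xx (T - d p) (fl T z.2) + 1/4))^2 =
      (fun _ => (1:ℝ)) z.1 * (fun y => (fun w => (∑ p ∈ S, c p * (xx (T - d p) w + 1/4))^2)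
        (fl T y)) z.2 := by
    intro z
    simp
  rw [integral_congr_ae (ae_of_all _ e), sq_int (fun _ => (1:ℝ))
    (fun y => (fun w => (∑ p ∈ S, c p * (xx (T - d p) w + 1/4))^2) (fl T y)), int_one,
    int_fl T (fun w => (∑ p ∈ S, c p * (xx (T - d p) w + 1/4))^2), one_mul]
  have h1 : ∑ w ∈ Finset.range (2^T), (∑ p ∈ S, c p * (xx (T - d p) w + 1/4))^2 =
      ∑ p ∈ S, c p ^ 2 * ∑ w ∈ Finset.range (2^T),
        (xx (T - d p) w + 1/4) * (xx (T - d p) w + 1/4) := by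
    have : ∀ w, (∑ p ∈ S, c p * (xx (T - d p) w + 1/4))^2 =
        ∑ p ∈ S, ∑ q ∈ S, (c p * c q) * ((xx (T - d p) w + 1/4) * (xx (T - d q) w + 1/4)) := by
      intro w
      rw [pow_two, Finset.sum_mul_sum]
      refine Finset.sum_congr rfl fun p _ => Finset.sum_congr rfl fun q _ => ?_
      ring
    simp_rw [this]
    rw [Finset.sum_comm]
    refine Finset.sum_congr rfl fun p hp => ?_
    rw [Finset.sum_comm, Finset.sum_eq_single_of_mem p hp]
    · rw [← Finset.mul_sum, pow_two]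
    · intro q hq hqp
      rw [← Finset.mul_sum, xx_orth' T _ _ (by have := hd p hp; omega) (by have := hd q hq; omega)
        _ (by omega) (by omega), mul_zero]
      intro hh
      apply hqp
      have a := hd p hp
      have b := hd q hq
      exact (hinj p hp q hq (by omega)).symm
  rw [h1]
  have h2 : ∑ p ∈ S, c p ^ 2 * ∑ w ∈ Finset.range (2^T),
        (xx (T - d p) w + 1/4) * (xx (T - d p) w + 1/4) ≤ ∑ p ∈ S, c p ^ 2 * (2^T * 2) := by
    refine Finset.sum_le_sum fun p _ => ?_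
    have : ∑ w ∈ Finset.range (2^T), (xx (T - d p) w + 1/4) * (xx (T - d p) w + 1/4) ≤
        2^T * 2 := by
      refine (Finset.sum_le_card_nsmul _ _ _ (fun w _ => xx_sq_le _ w)).trans ?_
      rw [Finset.card_range, nsmul_eq_mul]
      push_cast
      exact le_rfl
    gcongr
  rw [← Finset.sum_mul] at h2
  have h3 : (0:ℝ) < 2^T := by positivity
  calc ((2:ℝ)^T)⁻¹ * _ ≤ ((2:ℝ)^T)⁻¹ * ((∑ p ∈ S, c p ^ 2) * (2^T * 2)) := by gcongr
    _ = 2 * ∑ p ∈ S, c p ^ 2 := by field_simp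

namespace Par

variable (P : Par)

lemma NN_succ (g : ℕ) : P.NN (g+1) = P.NN g + 2^(P.TT g) := by
  unfold NN; rw [Finset.sum_range_succ]

lemma NN_strictMono : StrictMono P.NN := by
  apply strictMono_nat_of_lt_succ
  intro g
  rw [NN_succ]
  have : 0 < 2^(P.TT g) := by positivity
  omega

lemma block_unique (g h k : ℕ) (h1 : P.NN g ≤ k) (h2 : k < P.NN g + 2^(P.TT g))
    (h3 : P.NN h ≤ k) (h4 : k < P.NN h + 2^(P.TT h)) : g = h := by
  rw [← NN_succ] at h2 h4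
  rcases lt_trichotomy g h with hh | hh | hh
  · have := P.NN_strictMono.monotone (show g + 1 ≤ h from hh)
    omega
  · exact hh
  · have := P.NN_strictMono.monotone (show h + 1 ≤ g from hh)
    omega

open Classical in
/-- the coefficients -/
noncomputable def aa (i k : ℕ) : ℝ :=
  if P.inB i k then P.h i * (Real.sqrt (P.N i))⁻¹ * (Real.sqrt (2^(P.TT (P.grp i))))⁻¹ else 0

noncomputable def Dg (g : ℕ) (z : ℝ × ℝ) : ℝ :=
  ∑ i ∈ Finset.Ico (P.G g) (P.G (g+1)), (P.h i * ((P.N i : ℝ))⁻¹) *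
    ∑ j ∈ P.DD i, xx (P.TT g - j) (fl (P.TT g) z.2)

lemma Dg_meas (g : ℕ) : Measurable (P.Dg g) := by
  unfold Dg
  refine Finset.measurable_sum _ (fun i _ => ?_)
  refine Measurable.const_mul ?_ _
  refine Finset.measurable_sum _ (fun j _ => ?_)
  exact (measurable_of_countable (xx (P.TT g - j))).comp ((fl_meas _).comp measurable_snd)

/-- the total size of group g -/
noncomputable def Hg (g : ℕ) : ℝ := ∑ i ∈ Finset.Ico (P.G g) (P.G (g+1)), P.h i

lemma Dg_add (g : ℕ) (z : ℝ × ℝ) : P.Dg g z + P.Hg g / 4 =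
    ∑ p ∈ (Finset.Ico (P.G g) (P.G (g+1))).sigma (fun i => P.DD i),
      (P.h p.1 * ((P.N p.1 : ℝ))⁻¹) * (xx (P.TT g - p.2) (fl (P.TT g) z.2) + 1/4) := by
  rw [Finset.sum_sigma]
  unfold Dg Hg
  rw [Finset.sum_div, ← Finset.sum_add_distrib]
  refine Finset.sum_congr rfl fun i _ => ?_
  show P.h i * ((P.N i : ℝ))⁻¹ * ∑ j ∈ P.DD i, xx (P.TT g - j) (fl (P.TT g) z.2) + P.h i / 4 =
    ∑ j ∈ P.DD i, P.h i * ((P.N i : ℝ))⁻¹ * (xx (P.TT g - j) (fl (P.TT g) z.2) + 1 / 4)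
  rw [← Finset.mul_sum, Finset.sum_add_distrib, mul_add, Finset.sum_const, DD_card, nsmul_eq_mul]
  congr 1
  by_cases hN : P.N i = 0
  · rw [P.hN i hN]
    simp
  · have : (P.N i : ℝ) ≠ 0 := by exact_mod_cast hN
    field_simp

lemma Dg_second (g : ℕ) : ∫ z, (P.Dg g z + P.Hg g / 4)^2 ∂sq ≤
    2 * ∑ i ∈ Finset.Ico (P.G g) (P.G (g+1)), P.h i ^ 2 := by
  simp_rw [Dg_add]
  have hmem : ∀ p ∈ (Finset.Ico (P.G g) (P.G (g+1))).sigma (fun i => P.DD i),
      P.grp p.1 = g ∧ p.2 ∈ P.DD p.1 := by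
    intro p hp
    rw [Finset.mem_sigma, Finset.mem_Ico] at hp
    exact ⟨P.grp_eq g p.1 hp.1.1 hp.1.2, hp.2⟩
  refine (second_moment _ (fun p : (_ : ℕ) × ℕ => p.2)
    (fun p : (_ : ℕ) × ℕ => P.h p.1 * ((P.N p.1 : ℝ))⁻¹) (P.TT g) ?_ ?_).trans ?_
  · intro p hp
    have := P.lt_TT p.1 p.2 (hmem p hp).2
    rw [(hmem p hp).1] at this
    exact this
  · rintro ⟨i, j⟩ hp ⟨i', j'⟩ hq h
    have e : j = j' := h
    subst e
    have := P.DD_disj i i' j (hmem _ hp).2 (hmem _ hq).2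
    subst this
    rfl
  · rw [Finset.sum_sigma]
    gcongr with i hi
    show ∑ _s ∈ P.DD i, (P.h i * ((P.N i : ℝ))⁻¹) ^ 2 ≤ P.h i ^ 2
    rw [Finset.sum_const, DD_card, nsmul_eq_mul]
    by_cases hN : P.N i = 0
    · rw [P.hN i hN]
      simp
    · have h1 : (1:ℝ) ≤ P.N i := by exact_mod_cast Nat.one_le_iff_ne_zero.2 hN
      have h2 : (P.N i : ℝ) * (P.h i * ((P.N i : ℝ))⁻¹) ^ 2 = P.h i ^ 2 * ((P.N i : ℝ))⁻¹ := by
        field_simp
      rw [h2]
      exact mul_le_of_le_one_right (sq_nonneg _) (inv_le_one_of_one_le₀ h1)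

lemma main_sum (i l : ℕ) (z : ℝ × ℝ) (hl : l = fl (P.TT (P.grp i)) z.2) :
    ∑ k ∈ Finset.range l, P.h i * (Real.sqrt (P.N i))⁻¹ *
      (Real.sqrt (2^(P.TT (P.grp i))))⁻¹ * P.mainF i k z = (P.h i * ((P.N i : ℝ))⁻¹) *
    ∑ j ∈ P.DD i, xx (P.TT (P.grp i) - j) (fl (P.TT (P.grp i)) z.2) := by
  unfold mainF
  rw [← Finset.mul_sum, Finset.sum_comm, Finset.mul_sum, Finset.mul_sum]
  apply Finset.sum_congr rfl
  intro j hj
  have hjT := P.lt_TT i j hj
  rw [← Finset.mul_sum]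
  have h1 : ∀ k ∈ Finset.range l, hr j (k / 2^(P.TT (P.grp i) - j)) z =
      if l / 2^(P.TT (P.grp i) - j) = k / 2^(P.TT (P.grp i) - j) then rad j z.2 else 0 := by
    intro k _
    unfold hr hy
    rw [← fl_div' j (P.TT (P.grp i)) hjT.le, ← hl]
  rw [Finset.sum_congr rfl h1, count_block]
  have h2 : rad j z.2 = if (l / 2^(P.TT (P.grp i) - j - 1)) % 2 = 0 then 1 else -1 := by
    unfold rad
    rw [← fl_div' (j+1) (P.TT (P.grp i)) (by omega), ← hl]
    have : P.TT (P.grp i) - (j+1) = P.TT (P.grp i) - j - 1 := by omega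
    rw [this]
  rw [← hl]
  unfold xx cM
  rw [h2]
  have hs : Real.sqrt (2^(P.TT (P.grp i))) ≠ 0 := by positivity
  have h4 := P.sqN i
  calc _ = (Real.sqrt (2^(P.TT (P.grp i))) * (Real.sqrt (2^(P.TT (P.grp i))))⁻¹) *
        (P.h i * ((Real.sqrt (P.N i))⁻¹ * (Real.sqrt (P.N i))⁻¹)) *
        (((l % 2 ^ (P.TT (P.grp i) - j) : ℕ) : ℝ) * (2 ^ (P.TT (P.grp i) - j))⁻¹ *
        (if l / 2 ^ (P.TT (P.grp i) - j - 1) % 2 = 0 then 1 else -1)) := by ring
    _ = _ := by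
      rw [h4, mul_inv_cancel₀ hs, one_mul]

lemma Dg_eq (g : ℕ) (z : ℝ × ℝ) (h2 : z.2 ≤ 1)
    (h : ∀ i k, P.inB i k → g ≤ P.grp i → P.ph2 i k z = 0) :
    P.Dg g z = P.S P.aa (P.G (g+1)) (P.NN g + fl (P.TT g) z.2) z -
      P.S P.aa (P.G (g+1)) (P.NN g) z := by
  classical
  have hl : fl (P.TT g) z.2 ≤ 2^(P.TT g) := by
    unfold fl
    apply Nat.floor_le_of_le
    push_cast
    have h4 : (0:ℝ) < 2^(P.TT g) := by positivity
    nlinarith
  unfold S
  rw [← Finset.sum_sub_distrib]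
  have h3 : ∀ i, ∑ k ∈ Finset.range (P.NN g + fl (P.TT g) z.2), P.aa i k * P.phi i k z -
      ∑ k ∈ Finset.range (P.NN g), P.aa i k * P.phi i k z =
      ∑ k ∈ Finset.range (fl (P.TT g) z.2), P.aa i (P.NN g + k) * P.phi i (P.NN g + k) z := by
    intro i
    rw [Finset.sum_range_add]; ring
  simp_rw [h3]
  have hle : P.G g ≤ P.G (g+1) := P.hG.monotone (Nat.le_succ g)
  rw [Finset.range_eq_Ico (P.G (g+1)), ← Finset.sum_Ico_consecutive _ (Nat.zero_le _) hle]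
  have hz : ∑ i ∈ Finset.Ico 0 (P.G g), ∑ k ∈ Finset.range (fl (P.TT g) z.2),
      P.aa i (P.NN g + k) * P.phi i (P.NN g + k) z = 0 := by
    apply Finset.sum_eq_zero
    intro i hi
    apply Finset.sum_eq_zero
    intro k hk
    have hi' := P.grp_lt g i (Finset.mem_Ico.1 hi).2
    have hk' := Finset.mem_range.1 hk
    have : ¬ P.inB i (P.NN g + k) := by
      rintro ⟨-, b1, b2⟩
      have := P.block_unique g (P.grp i) (P.NN g + k) (by omega) (by omega) b1 b2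
      omega
    unfold aa
    rw [if_neg this, zero_mul]
  rw [hz, zero_add]
  unfold Dg
  apply Finset.sum_congr rfl
  intro i hi
  have hg := P.grp_eq g i (Finset.mem_Ico.1 hi).1 (Finset.mem_Ico.1 hi).2
  have hm := P.main_sum i (fl (P.TT g) z.2) z (by rw [hg])
  rw [hg] at hm
  by_cases hN : P.N i = 0
  · rw [P.hN i hN]
    simp only [zero_mul]
    symm
    apply Finset.sum_eq_zero
    intro k _
    unfold aa
    rw [if_neg (fun hb => hb.1 hN), zero_mul]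
  rw [← hm]
  apply Finset.sum_congr rfl
  intro k hk
  have hk' := Finset.mem_range.1 hk
  have hb : P.inB i (P.NN g + k) := by
    unfold inB
    rw [hg]
    exact ⟨hN, by omega, by omega⟩
  have h5 := h i (P.NN g + k) hb hg.ge
  rw [P.phi_eq, h5, add_zero]
  unfold aa ph1
  rw [if_pos hb, if_pos hb, hg]
  simp

/-- almost everywhere unbounded divergence -/
theorem diverge (hsum : Summable (fun i => P.h i ^ 2)) (hH : ∀ g : ℕ, (g:ℝ) ≤ P.Hg g) :
    ∀ᵐ z ∂sq, ∀ (K : ℝ) (M : ℕ), ∃ m ≥ M, ∃ n ≥ M, K < |P.S P.aa m n z| := by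
  have hgs : Summable (fun g => ∑ i ∈ Finset.Ico (P.G g) (P.G (g+1)), P.h i ^ 2) := by
    refine summable_of_sum_range_le (c := ∑' i, P.h i ^ 2)
      (fun g => Finset.sum_nonneg fun _ _ => sq_nonneg _) (fun n => ?_)
    have : ∑ g ∈ Finset.range n, ∑ i ∈ Finset.Ico (P.G g) (P.G (g+1)), P.h i ^ 2 =
        ∑ i ∈ Finset.range (P.G n), P.h i ^ 2 := by
      induction n with
      | zero => simp [P.hG0]
      | succ n ih =>
        rw [Finset.sum_range_succ, ih, Finset.sum_range_add_sum_Ico _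
          (P.hG.monotone (Nat.le_succ n))]
    rw [this]
    exact hsum.sum_le_tsum _ (fun _ _ => sq_nonneg _)
  have hmeas : ∀ g, Measurable (fun z => ENNReal.ofReal ((P.Dg g z + P.Hg g / 4)^2)) := fun g =>
    (((P.Dg_meas g).add_const _).pow_const 2).ennreal_ofReal
  have hint : ∀ g, Integrable (fun z => (P.Dg g z + P.Hg g / 4)^2) sq := by
    intro g
    have hb : ∃ C, ∀ z ∈ Set.Icc (0:ℝ) 1 ×ˢ Set.Icc (0:ℝ) 1, |P.Dg g z + P.Hg g / 4| ≤ C := by
      refine ⟨∑ i ∈ Finset.Ico (P.G g) (P.G (g+1)), |P.h i * ((P.N i : ℝ))⁻¹| *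
        (P.DD i).card + |P.Hg g / 4|, fun z _ => ?_⟩
      refine (abs_add_le _ _).trans ?_
      gcongr
      unfold Dg
      refine (Finset.abs_sum_le_sum_abs _ _).trans ?_
      refine Finset.sum_le_sum fun i _ => ?_
      rw [abs_mul]
      gcongr
      refine (Finset.abs_sum_le_sum_abs _ _).trans ?_
      refine (Finset.sum_le_card_nsmul _ _ _ (fun j _ => xx_abs_le _ _)).trans ?_
      rw [nsmul_eq_mul, mul_one]
    obtain ⟨C, hC⟩ := hb
    refine Integrable.of_bound (((P.Dg_meas g).add_const _).pow_const 2).aestronglyMeasurable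
      (C^2) ?_
    unfold Pool.Agent.Results.MP_8173ef_an.PringsheimFails.sq
    rw [ae_restrict_iff' (measurableSet_Icc.prod measurableSet_Icc)]
    refine ae_of_all _ (fun z hz => ?_)
    have h := hC z hz
    rw [Real.norm_eq_abs, abs_pow]
    gcongr
  have hfin : ∫⁻ z, ∑' g, ENNReal.ofReal ((P.Dg g z + P.Hg g / 4)^2) ∂sq ≠ ⊤ := by
    rw [lintegral_tsum (fun g => (hmeas g).aemeasurable)]
    have h2 : ∀ g, ∫⁻ z, ENNReal.ofReal ((P.Dg g z + P.Hg g / 4)^2) ∂sq ≤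
        ENNReal.ofReal (2 * ∑ i ∈ Finset.Ico (P.G g) (P.G (g+1)), P.h i ^ 2) := by
      intro g
      rw [← ofReal_integral_eq_lintegral_ofReal (hint g) (ae_of_all _ (fun z => sq_nonneg _))]
      exact ENNReal.ofReal_le_ofReal (P.Dg_second g)
    refine ne_top_of_le_ne_top ?_ (ENNReal.tsum_le_tsum h2)
    exact (hgs.mul_left 2).tsum_ofReal_ne_top
  have hae := ae_lt_top (Measurable.tsum hmeas) hfin
  have hsq : ∀ᵐ z ∂sq, z ∈ Set.Icc (0:ℝ) 1 ×ˢ Set.Icc (0:ℝ) 1 :=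
    ae_restrict_mem (measurableSet_Icc.prod measurableSet_Icc)
  filter_upwards [hae, hsq] with z hz hzs
  obtain ⟨g0, hg0⟩ := P.ph2_inB z
  set B := (∑' g, ENNReal.ofReal ((P.Dg g z + P.Hg g / 4)^2)).toReal with hB
  have hB0 : 0 ≤ B := ENNReal.toReal_nonneg
  have hb : ∀ g, |P.Dg g z + P.Hg g / 4| ≤ Real.sqrt B := by
    intro g
    apply Real.abs_le_sqrt
    rw [hB, ← ENNReal.ofReal_le_iff_le_toReal hz.ne]
    exact ENNReal.le_tsum g
  intro K M
  obtain ⟨g, hg⟩ : ∃ g : ℕ, max ((max g0 M : ℕ) : ℝ) (4 * (2 * |K| + Real.sqrt B) + 1) ≤ (g:ℝ) :=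
    exists_nat_ge _
  have hg1 : max g0 M ≤ g := by exact_mod_cast (le_max_left _ _).trans hg
  have hg2 : 4 * (2 * |K| + Real.sqrt B) + 1 ≤ (g:ℝ) := (le_max_right _ _).trans hg
  have h1 := hb g
  have h2 := hH g
  have h3 : 2 * |K| < |P.Dg g z| := by
    have a1 := (abs_le.1 h1).2
    have a2 : -P.Dg g z ≤ |P.Dg g z| := neg_le_abs _
    nlinarith
  rw [P.Dg_eq g z hzs.2.2 (fun i k hb hg' => hg0 i k hb (by omega))] at h3
  have hm : M ≤ P.G (g+1) := by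
    have : g + 1 ≤ P.G (g+1) := P.hG.le_apply
    omega
  have hn : M ≤ P.NN g := by
    have : g ≤ P.NN g := P.NN_strictMono.le_apply
    omega
  by_cases hc : |K| < |P.S P.aa (P.G (g+1)) (P.NN g) z|
  · exact ⟨P.G (g+1), hm, P.NN g, hn, (le_abs_self K).trans_lt hc⟩
  · refine ⟨P.G (g+1), hm, P.NN g + fl (P.TT g) z.2, by omega, (le_abs_self K).trans_lt ?_⟩
    push Not at hc
    have := abs_sub (P.S P.aa (P.G (g+1)) (P.NN g + fl (P.TT g) z.2) z)
      (P.S P.aa (P.G (g+1)) (P.NN g) z)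
    linarith

/-- number of blocks to the left of column k -/
def cnt (k : ℕ) : ℕ := Nat.findGreatest (fun g => P.NN g ≤ k) k

lemma cnt_mono : Monotone P.cnt := by
  intro k l h
  unfold cnt
  exact Nat.findGreatest_mono (fun g hg => le_trans hg h) h

lemma le_cnt (g k : ℕ) (h : P.NN g ≤ k) : g ≤ P.cnt k := by
  unfold cnt
  exact Nat.le_findGreatest (le_trans P.NN_strictMono.le_apply h) h

lemma cnt_le (g k : ℕ) (h : k < P.NN (g+1)) : P.cnt k ≤ g := by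
  by_contra hc
  push Not at hc
  have h0 : P.NN (P.cnt k) ≤ k := by
    unfold cnt
    exact Nat.findGreatest_spec (P := fun g => P.NN g ≤ k) (Nat.zero_le k) (by simp [NN])
  have := P.NN_strictMono.monotone (show g + 1 ≤ P.cnt k from hc)
  omega

/-- the column weight -/
noncomputable def nu (k : ℕ) : ℝ := 1 + (P.cnt k : ℝ)

lemma aa_summable (w : ℕ → ℝ) (hw : ∀ i, 0 ≤ w i)
    (hs : Summable (fun i => P.h i ^ 2 * ((P.N i : ℝ))⁻¹ * w i * (1 + (P.grp i : ℝ)))) :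
    Summable (fun p : ℕ × ℕ => P.aa p.1 p.2 ^ 2 * (w p.1 * P.nu p.2)) := by
  classical
  have hnn : ∀ p : ℕ × ℕ, 0 ≤ P.aa p.1 p.2 ^ 2 * (w p.1 * P.nu p.2) := by
    intro p
    have := hw p.1
    unfold nu
    positivity
  rw [summable_prod_of_nonneg hnn]
  have hzero : ∀ i k, k ∉ Finset.Ico (P.NN (P.grp i)) (P.NN (P.grp i) + 2^(P.TT (P.grp i))) →
      P.aa i k ^ 2 * (w i * P.nu k) = 0 := by
    intro i k hk
    rw [Finset.mem_Ico] at hk
    have : ¬ P.inB i k := fun hb => hk hb.2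
    unfold aa
    rw [if_neg this]
    simp
  refine ⟨fun i => summable_of_ne_finset_zero
    (s := Finset.Ico (P.NN (P.grp i)) (P.NN (P.grp i) + 2^(P.TT (P.grp i))))
    (fun k hk => hzero i k hk), ?_⟩
  refine Summable.of_nonneg_of_le (fun i => tsum_nonneg (fun k => hnn (i, k))) (fun i => ?_) hs
  show ∑' k, P.aa i k ^ 2 * (w i * P.nu k) ≤ _
  rw [tsum_eq_sum (s := Finset.Ico (P.NN (P.grp i)) (P.NN (P.grp i) + 2^(P.TT (P.grp i))))
    (fun k hk => hzero i k hk)]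
  have h1 : ∀ k ∈ Finset.Ico (P.NN (P.grp i)) (P.NN (P.grp i) + 2^(P.TT (P.grp i))),
      P.aa i k ^ 2 * (w i * P.nu k) ≤ ((2:ℝ)^(P.TT (P.grp i)))⁻¹ *
        (P.h i ^ 2 * ((P.N i : ℝ))⁻¹ * w i * (1 + (P.grp i : ℝ))) := by
    intro k hk
    rw [Finset.mem_Ico] at hk
    have hc : (P.cnt k : ℝ) ≤ P.grp i := by
      have := P.cnt_le (P.grp i) k (by rw [NN_succ]; exact hk.2)
      exact_mod_cast this
    have hw' := hw i
    have h2 : P.aa i k ^ 2 ≤ ((2:ℝ)^(P.TT (P.grp i)))⁻¹ * (P.h i ^ 2 * ((P.N i : ℝ))⁻¹) := by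
      unfold aa
      split_ifs
      · rw [mul_pow, mul_pow, inv_pow (Real.sqrt _), inv_pow (Real.sqrt _),
          Real.sq_sqrt (by positivity), Real.sq_sqrt (by positivity)]
        apply le_of_eq
        ring
      · simp only [ne_eq, OfNat.ofNat_ne_zero, not_false_eq_true, zero_pow]
        positivity
    calc P.aa i k ^ 2 * (w i * P.nu k) ≤
        (((2:ℝ)^(P.TT (P.grp i)))⁻¹ * (P.h i ^ 2 * ((P.N i : ℝ))⁻¹)) *
          (w i * (1 + (P.grp i : ℝ))) := by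
          unfold nu
          gcongr
      _ = _ := by ring
  refine (Finset.sum_le_card_nsmul _ _ _ h1).trans ?_
  rw [Nat.card_Ico, nsmul_eq_mul, Nat.add_sub_cancel_left]
  push_cast
  have h6 : (0:ℝ) < 2^(P.TT (P.grp i)) := by positivity
  apply le_of_eq
  field_simp

end Par

end Pool.Agent.Y259.PF
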