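import Mathlib
import Pool.Agent.Y259.PF.Div

/-! Choice of the parameters and the main theorem. -/

set_option autoImplicit false
open MeasureTheory Filter

namespace Pool.Agent.Y259.PF

open Pool.Agent.Results.MP_8173ef_an.PringsheimFails (sq Admissible DoubleOrthonormal rectSum
  HasGrowth PringsheimConverges sum_range_mul)

/-- sums over groups -/
lemma sum_groups (G : ℕ → ℕ) (hG0 : G 0 = 0) (hG : StrictMono G) (f : ℕ → ℝ) (n : ℕ) :
    ∑ g ∈ Finset.range n, ∑ i ∈ Finset.Ico (G g) (G (g+1)), f i = ∑ i ∈ Finset.range (G n), f i := by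
  induction n with
  | zero => simp [hG0]
  | succ n ih =>
    rw [Finset.sum_range_succ, ih, Finset.sum_range_add_sum_Ico _ (hG.monotone (Nat.le_succ n))]

lemma summable_groups (G : ℕ → ℕ) (hG0 : G 0 = 0) (hG : StrictMono G) (f : ℕ → ℝ)
    (hf : ∀ i, 0 ≤ f i) (u : ℕ → ℝ) (hu : Summable u) (hu0 : ∀ g, 0 ≤ u g)
    (h : ∀ g, ∑ i ∈ Finset.Ico (G g) (G (g+1)), f i ≤ u g) : Summable f := by
  refine summable_of_sum_range_le (c := ∑' g, u g) hf (fun n => ?_)
  have h1 : n ≤ G n := hG.le_apply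
  calc ∑ i ∈ Finset.range n, f i ≤ ∑ i ∈ Finset.range (G n), f i :=
        Finset.sum_le_sum_of_subset_of_nonneg (Finset.range_mono h1) (fun i _ _ => hf i)
    _ = ∑ g ∈ Finset.range n, ∑ i ∈ Finset.Ico (G g) (G (g+1)), f i :=
        (sum_groups G hG0 hG f n).symm
    _ ≤ ∑ g ∈ Finset.range n, u g := Finset.sum_le_sum fun g _ => h g
    _ ≤ ∑' g, u g := hu.sum_le_tsum _ (fun g _ => hu0 g)

/-- groups with large sums -/
lemma exists_groups (t : ℕ → ℝ) (ht : ∀ i, 0 ≤ t i) (hns : ¬ Summable t) :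
    ∃ G : ℕ → ℕ, G 0 = 0 ∧ StrictMono G ∧
      ∀ g, (8:ℝ)^g ≤ ∑ i ∈ Finset.Ico (G g) (G (g+1)), t i := by
  have hlim := (not_summable_iff_tendsto_nat_atTop_of_nonneg ht).1 hns
  have hnext : ∀ a : ℕ, ∀ M : ℝ, ∃ b, a < b ∧ M ≤ ∑ i ∈ Finset.Ico a b, t i := by
    intro a M
    obtain ⟨b, hb1, hb2⟩ := ((hlim.eventually_ge_atTop (M + ∑ i ∈ Finset.range a, t i)).and
      (eventually_gt_atTop a)).exists
    refine ⟨b, hb2, ?_⟩
    have := Finset.sum_range_add_sum_Ico t hb2.le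
    linarith
  choose nx hnx1 hnx2 using hnext
  let G : ℕ → ℕ := fun g => Nat.rec 0 (fun g a => nx a ((8:ℝ)^g)) g
  have hGs : ∀ g, G (g+1) = nx (G g) ((8:ℝ)^g) := fun g => rfl
  refine ⟨G, rfl, strictMono_nat_of_lt_succ fun g => ?_, fun g => ?_⟩
  · rw [hGs]
    exact hnx1 _ _
  · rw [hGs]
    exact hnx2 _ _

lemma aux_u : Summable (fun g : ℕ => 2 * ((g:ℝ)^2 * (1 + (g:ℝ))) * ((8:ℝ)^g)⁻¹) := by
  have h1 : Summable (fun g : ℕ => (g:ℝ)^2 * (1/8:ℝ)^g) :=
    summable_pow_mul_geometric_of_norm_lt_one 2 (by norm_num)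
  have h2 : Summable (fun g : ℕ => (g:ℝ)^3 * (1/8:ℝ)^g) :=
    summable_pow_mul_geometric_of_norm_lt_one 3 (by norm_num)
  refine ((h1.add h2).mul_left 2).congr fun g => ?_
  rw [one_div, inv_pow]
  ring

/-- the conclusion -/
def Fails (μ θ : ℕ → ℝ) : Prop :=
  ∃ ν : ℕ → ℝ, (∀ k, 1 ≤ ν k) ∧ Monotone ν ∧ Tendsto ν atTop atTop ∧
    Admissible (fun i k => μ i * ν k) ∧
    ∃ φ : ℕ → ℕ → ℝ × ℝ → ℝ, DoubleOrthonormal φ ∧ HasGrowth φ (fun i _ => μ i) ∧
      HasGrowth φ (fun i k => μ i * ν k) ∧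
      ∃ a : ℕ → ℕ → ℝ, Summable (fun p : ℕ × ℕ => a p.1 p.2 ^ 2 * (μ p.1 * ν p.2) * θ p.1) ∧
        ∀ᵐ z ∂sq, (∀ (K : ℝ) (M : ℕ), ∃ m ≥ M, ∃ n ≥ M, K < |rectSum a φ m n z|) ∧
          ¬ PringsheimConverges a φ z

open Classical in
theorem main (μ θ : ℕ → ℝ) (hpos : ∀ i, 0 < μ i) (hmono : Monotone μ)
    (hlim : Tendsto μ atTop atTop) (hθ : ∀ i, 1 ≤ θ i) (r : ℕ → ℕ) (hr : StrictMono r)
    (hr0 : 1 ≤ μ (r 0)) (hr2 : ∀ q, 2 * μ (r q) ≤ μ (r (q+1)))
    (hns : ¬ Summable (fun q => (θ (r q))⁻¹)) : Fails μ θ := by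
  -- special rows
  obtain ⟨t, ht⟩ : ∃ t : ℕ → ℝ, t = fun i => if i ∈ Set.range r then (θ i)⁻¹ else 0 := ⟨_, rfl⟩
  have hθ0 : ∀ i, 0 < θ i := fun i => lt_of_lt_of_le one_pos (hθ i)
  have ht0 : ∀ i, 0 ≤ t i := by
    intro i
    rw [ht]
    have := hθ0 i
    dsimp only
    split_ifs <;> positivity
  have htns : ¬ Summable t := by
    intro hs
    apply hns
    have := hs.comp_injective hr.injective
    refine this.congr fun q => ?_
    simp [ht]
  obtain ⟨G, hG0, hG, hGs⟩ := exists_groups t ht0 htns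
  have hs0 : ∀ g, 0 < ∑ i ∈ Finset.Ico (G g) (G (g+1)), t i := fun g =>
    lt_of_lt_of_le (by positivity) (hGs g)
  obtain ⟨s, hs⟩ : ∃ s : ℕ → ℝ, s = fun g => ∑ i ∈ Finset.Ico (G g) (G (g+1)), t i := ⟨_, rfl⟩
  have hs0' : ∀ g, 0 < s g := fun g => by rw [hs]; exact hs0 g
  have hs8 : ∀ g, (8:ℝ)^g ≤ s g := fun g => by rw [hs]; exact hGs g
  obtain ⟨gr, hgr⟩ : ∃ gr : ℕ → ℕ, gr = fun i => Nat.findGreatest (fun g => G g ≤ i) i := ⟨_, rfl⟩
  have hN1 : ∀ q, 1 ≤ μ (r q) := fun q => hr0.trans (hmono (hr.monotone (Nat.zero_le q)))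
  obtain ⟨N, hN⟩ : ∃ N : ℕ → ℕ, N = fun i => if i ∈ Set.range r then ⌊μ i⌋₊ else 0 := ⟨_, rfl⟩
  let P : Par :=
    { N := N
      G := G
      h := fun i => (gr i : ℝ) / s (gr i) * t i
      hG0 := hG0
      hG := hG
      hh := fun i => mul_nonneg (div_nonneg (Nat.cast_nonneg _) (hs0' _).le) (ht0 i)
      hN := by
        intro i hi
        have : t i = 0 := by
          rw [ht]
          dsimp only
          rw [hN] at hi
          dsimp only at hi
          split_ifs at hi with h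
          · obtain ⟨q, rfl⟩ := h
            rw [Nat.floor_eq_zero] at hi
            have := hN1 q
            linarith
          · rw [if_neg h]
        rw [this, mul_zero] }
  have hgrp : ∀ i, P.grp i = gr i := fun i => by rw [hgr]; rfl
  have hPh : ∀ i, P.h i = (gr i : ℝ) / s (gr i) * t i := fun i => rfl
  have hPN : ∀ i, P.N i = N i := fun i => rfl
  have hgi : ∀ g, ∀ i ∈ Finset.Ico (G g) (G (g+1)), gr i = g := by
    intro g i hi
    rw [← hgrp]
    exact P.grp_eq g i (Finset.mem_Ico.1 hi).1 (Finset.mem_Ico.1 hi).2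
  -- group sums
  have hHg : ∀ g, P.Hg g = g := by
    intro g
    show ∑ i ∈ Finset.Ico (G g) (G (g+1)), (gr i : ℝ) / s (gr i) * t i = g
    have : ∀ i ∈ Finset.Ico (G g) (G (g+1)), (gr i : ℝ) / s (gr i) * t i = (g:ℝ) / s g * t i := by
      intro i hi
      rw [hgi g i hi]
    rw [Finset.sum_congr rfl this, ← Finset.mul_sum]
    have e : ∑ i ∈ Finset.Ico (G g) (G (g+1)), t i = s g := by rw [hs]
    rw [e]
    have := (hs0' g).ne'
    field_simp
  have hrange : ∀ i, t i ≠ 0 → i ∈ Set.range r := by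
    intro i hi
    by_contra hc
    apply hi
    rw [ht]
    dsimp only
    rw [if_neg hc]
  -- weights
  have hw : Summable (fun i => P.h i ^ 2 * ((P.N i : ℝ))⁻¹ * (μ i * θ i) * (1 + (P.grp i : ℝ))) := by
    refine summable_groups G hG0 hG _ (fun i => ?_) _ aux_u (fun g => by positivity) (fun g => ?_)
    · have := hpos i
      have := hθ0 i
      positivity
    · have h1 : ∀ i ∈ Finset.Ico (G g) (G (g+1)),
          P.h i ^ 2 * ((P.N i : ℝ))⁻¹ * (μ i * θ i) * (1 + (P.grp i : ℝ)) ≤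
          (2 * ((g:ℝ)^2 * (1 + (g:ℝ))) * (s g ^ 2)⁻¹) * t i := by
        intro i hi
        rw [hgrp, hPh, hgi g i hi]
        by_cases h0 : t i = 0
        · rw [h0]
          simp
        have hir := hrange i h0
        have e1 : t i = (θ i)⁻¹ := by
          rw [ht]
          dsimp only
          rw [if_pos hir]
        have e2 : P.N i = ⌊μ i⌋₊ := by
          rw [hPN, hN]
          dsimp only
          rw [if_pos hir]
        have e3 : 1 ≤ μ i := by
          obtain ⟨q, rfl⟩ := hir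
          exact hN1 q
        have e4 : (1:ℝ) ≤ (⌊μ i⌋₊ : ℝ) := by
          have : 1 ≤ ⌊μ i⌋₊ := Nat.le_floor (by simpa using e3)
          exact_mod_cast this
        have e5 : μ i ≤ 2 * (⌊μ i⌋₊ : ℝ) := by
          have := (Nat.lt_floor_add_one (μ i)).le
          linarith
        have e6 : ((⌊μ i⌋₊ : ℝ))⁻¹ * μ i ≤ 2 := by
          rw [inv_mul_le_iff₀ (by linarith)]
          linarith
        have e7 : t i * θ i = 1 := by
          rw [e1]
          exact inv_mul_cancel₀ (hθ0 i).ne'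
        rw [e2]
        have hsg := hs0' g
        have ht' := ht0 i
        calc ((g:ℝ) / s g * t i) ^ 2 * ((⌊μ i⌋₊ : ℝ))⁻¹ * (μ i * θ i) * (1 + (g:ℝ))
            = ((g:ℝ)^2 * (1 + (g:ℝ)) * (s g ^ 2)⁻¹ * t i) * (t i * θ i) *
              (((⌊μ i⌋₊ : ℝ))⁻¹ * μ i) := by
                rw [div_mul_eq_mul_div, div_pow]
                field_simp
          _ ≤ ((g:ℝ)^2 * (1 + (g:ℝ)) * (s g ^ 2)⁻¹ * t i) * (t i * θ i) * 2 := by
                rw [e7]
                gcongr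
          _ = _ := by
                rw [e7]
                ring
      refine (Finset.sum_le_sum h1).trans ?_
      rw [← Finset.mul_sum]
      have e : ∑ i ∈ Finset.Ico (G g) (G (g+1)), t i = s g := by rw [hs]
      rw [e]
      have hsg := hs0' g
      have e8 : 2 * ((g:ℝ)^2 * (1 + (g:ℝ))) * (s g ^ 2)⁻¹ * s g =
          2 * ((g:ℝ)^2 * (1 + (g:ℝ))) * (s g)⁻¹ := by
        field_simp
      rw [e8]
      have := hs8 g
      gcongr
  have hh2 : Summable (fun i => P.h i ^ 2) := by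
    refine Summable.of_nonneg_of_le (fun i => sq_nonneg _) (fun i => ?_) hw
    by_cases h0 : t i = 0
    · rw [hPh, h0]
      simp
    have hir := hrange i h0
    have e2 : P.N i = ⌊μ i⌋₊ := by
      rw [hPN, hN]
      dsimp only
      rw [if_pos hir]
    have e3 : 1 ≤ μ i := by
      obtain ⟨q, rfl⟩ := hir
      exact hN1 q
    have e4 : (1:ℝ) ≤ (⌊μ i⌋₊ : ℝ) := by
      have : 1 ≤ ⌊μ i⌋₊ := Nat.le_floor (by simpa using e3)
      exact_mod_cast this
    have e5 : 1 ≤ ((⌊μ i⌋₊ : ℝ))⁻¹ * μ i := by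
      rw [le_inv_mul_iff₀ (by linarith), mul_one]
      exact Nat.floor_le (by linarith)
    have e6 := hθ i
    have e7 : (1:ℝ) ≤ 1 + (P.grp i : ℝ) := by
      have : (0:ℝ) ≤ P.grp i := Nat.cast_nonneg _
      linarith
    rw [e2]
    calc P.h i ^ 2 = P.h i ^ 2 * (1 * 1 * 1) := by ring
      _ ≤ P.h i ^ 2 * ((((⌊μ i⌋₊ : ℝ))⁻¹ * μ i) * θ i * (1 + (P.grp i : ℝ))) := by
          gcongr
      _ = _ := by ring
  -- growth of the digits
  have hNle : ∀ i, (N i : ℝ) ≤ μ i := by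
    intro i
    rw [hN]
    dsimp only
    split_ifs
    · exact Nat.floor_le (hpos i).le
    · simpa using (hpos i).le
  have hNnot : ∀ i, i ∉ Set.range r → (N i : ℝ) = 0 := by
    intro i hi
    rw [hN]
    dsimp only
    rw [if_neg hi]
    simp
  have hclaim : ∀ m, ∀ q, m ≤ r q → ∑ i ∈ Finset.range m, (N i : ℝ) ≤ μ (r q) := by
    intro m
    induction m with
    | zero =>
      intro q _
      simpa using (hpos _).le
    | succ m ih =>
      intro q hq
      rw [Finset.sum_range_succ]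
      by_cases hm : m ∈ Set.range r
      · obtain ⟨p, rfl⟩ := hm
        have h1 := ih p le_rfl
        have h2 := hNle (r p)
        have h3 : p < q := hr.lt_iff_lt.1 (by omega)
        have h4 : μ (r (p+1)) ≤ μ (r q) := hmono (hr.monotone h3)
        have h5 := hr2 p
        linarith
      · rw [hNnot m hm, add_zero]
        exact ih q (by omega)
  have hNsum : ∀ m, ∑ i ∈ Finset.range (m+1), (N i : ℝ) ≤ 2 * μ m := by
    intro m
    induction m with
    | zero =>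
      have := hNle 0
      have := hpos 0
      simp only [zero_add, Finset.range_one, Finset.sum_singleton]
      linarith
    | succ m ih =>
      rw [Finset.sum_range_succ]
      by_cases hm : m + 1 ∈ Set.range r
      · obtain ⟨p, hp⟩ := hm
        have h1 := hclaim (m+1) p hp.ge
        have h2 := hNle (m+1)
        rw [hp] at h1
        linarith
      · rw [hNnot _ hm, add_zero]
        have := hmono (Nat.le_succ m)
        linarith
  have hgrowth : HasGrowth P.phi (fun i _ => μ i) := by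
    intro a ha
    filter_upwards [P.growth a ha] with z hz
    obtain ⟨C, hC0, hC⟩ := hz
    refine ⟨C * ((Real.sqrt (μ 0))⁻¹ + Real.sqrt 2), fun m n => ?_⟩
    show |P.S a (m+1) (n+1) z| ≤ _
    refine (hC (m+1) (n+1)).trans ?_
    have h1 : Real.sqrt (∑ i ∈ Finset.range (m+1), (P.N i : ℝ)) ≤
        Real.sqrt 2 * Real.sqrt (μ m) := by
      rw [← Real.sqrt_mul (by norm_num)]
      exact Real.sqrt_le_sqrt (hNsum m)
    have h2 : 1 ≤ (Real.sqrt (μ 0))⁻¹ * Real.sqrt (μ m) := by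
      rw [le_inv_mul_iff₀ (Real.sqrt_pos.2 (hpos 0)), mul_one]
      exact Real.sqrt_le_sqrt (hmono (Nat.zero_le m))
    calc C * (1 + Real.sqrt (∑ i ∈ Finset.range (m+1), (P.N i : ℝ)))
        ≤ C * ((Real.sqrt (μ 0))⁻¹ * Real.sqrt (μ m) + Real.sqrt 2 * Real.sqrt (μ m)) := by
          gcongr
      _ = _ := by ring
  have hnu1 : ∀ k, 1 ≤ P.nu k := by
    intro k
    unfold Par.nu
    have : (0:ℝ) ≤ P.cnt k := Nat.cast_nonneg _
    linarith
  have hnum : Monotone P.nu := by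
    intro k l h
    unfold Par.nu
    have : (P.cnt k : ℝ) ≤ P.cnt l := by exact_mod_cast P.cnt_mono h
    linarith
  have hnul : Tendsto P.nu atTop atTop := by
    refine tendsto_atTop.2 fun b => ?_
    obtain ⟨g, hg⟩ := exists_nat_ge b
    filter_upwards [eventually_ge_atTop (P.NN g)] with k hk
    have : (g:ℝ) ≤ P.cnt k := by exact_mod_cast P.le_cnt g k hk
    unfold Par.nu
    linarith
  have hdiv := P.diverge hh2 (fun g => (hHg g).ge)
  refine ⟨P.nu, hnu1, hnum, hnul, ⟨?_, ?_, ?_, ?_, ?_⟩, P.phi, P.ortho, hgrowth, ?_, P.aa, ?_, ?_⟩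
  · intro i k
    exact mul_pos (hpos i) (lt_of_lt_of_le one_pos (hnu1 k))
  · intro i k
    exact mul_le_mul_of_nonneg_right (hmono (Nat.le_succ i)) (zero_le_one.trans (hnu1 k))
  · intro i k
    exact mul_le_mul_of_nonneg_left (hnum (Nat.le_succ k)) (hpos i).le
  · intro B
    obtain ⟨M, hM⟩ := (hlim.eventually_ge_atTop B).exists_forall_of_atTop
    refine ⟨M, fun i k hi _ => ?_⟩
    exact (hM i hi).trans (le_mul_of_one_le_right (hpos i).le (hnu1 k))
  · intro i k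
    have h1 := hmono (Nat.le_succ i)
    have h2 := hnum (Nat.le_succ k)
    have h3 : 0 ≤ (μ (i+1) - μ i) * (P.nu (k+1) - P.nu k) :=
      mul_nonneg (sub_nonneg.2 h1) (sub_nonneg.2 h2)
    dsimp only
    nlinarith
  · intro a ha
    filter_upwards [hgrowth a ha] with z hz
    obtain ⟨C, hC⟩ := hz
    refine ⟨|C|, fun m n => (hC m n).trans ?_⟩
    have : Real.sqrt (μ m) ≤ Real.sqrt (μ m * P.nu n) :=
      Real.sqrt_le_sqrt (le_mul_of_one_le_right (hpos m).le (hnu1 n))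
    have h2 : 0 ≤ Real.sqrt (μ m) := Real.sqrt_nonneg _
    calc C * Real.sqrt (μ m) ≤ |C| * Real.sqrt (μ m) := by gcongr; exact le_abs_self C
      _ ≤ _ := by gcongr
  · refine (P.aa_summable (fun i => μ i * θ i) (fun i => (mul_pos (hpos i) (hθ0 i)).le)
      hw).congr fun p => ?_
    ring
  · filter_upwards [hdiv] with z hz
    have hub : ∀ (K : ℝ) (M : ℕ), ∃ m ≥ M, ∃ n ≥ M, K < |rectSum P.aa P.phi m n z| := by
      intro K M
      obtain ⟨m, hm, n, hn, h⟩ := hz K (M+1)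
      refine ⟨m - 1, by omega, n - 1, by omega, ?_⟩
      have e : rectSum P.aa P.phi (m-1) (n-1) z = P.S P.aa (m-1+1) (n-1+1) z := rfl
      rw [e, show m - 1 + 1 = m by omega, show n - 1 + 1 = n by omega]
      exact h
    refine ⟨hub, ?_⟩
    rintro ⟨L, hL⟩
    obtain ⟨M, hM⟩ := hL 1 one_pos
    obtain ⟨m, hm, n, hn, h⟩ := hub (|L| + 1) M
    have h1 := hM m hm n hn
    have h2 := abs_sub_abs_le_abs_sub (rectSum P.aa P.phi m n z) L
    linarith

/-- every growth rate -/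
theorem every (μ : ℕ → ℝ) (hpos : ∀ i, 0 < μ i) (hmono : Monotone μ)
    (hlim : Tendsto μ atTop atTop) : Fails μ (fun _ => 1) := by
  have hnext : ∀ (a : ℕ) (M : ℝ), ∃ b, a < b ∧ M ≤ μ b := by
    intro a M
    obtain ⟨b, hb1, hb2⟩ := ((hlim.eventually_ge_atTop M).and (eventually_gt_atTop a)).exists
    exact ⟨b, hb2, hb1⟩
  choose nx h1 h2 using hnext
  let r : ℕ → ℕ := fun q => Nat.rec (nx 0 1) (fun _ a => nx a (2 * μ a)) q
  have hrs : ∀ q, r (q+1) = nx (r q) (2 * μ (r q)) := fun q => rfl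
  refine main μ _ hpos hmono hlim (fun _ => le_rfl) r (strictMono_nat_of_lt_succ fun q => ?_)
    (h2 0 1) (fun q => ?_) ?_
  · rw [hrs]
    exact h1 _ _
  · rw [hrs]
    exact h2 _ _
  · intro hs
    have := hs.tendsto_atTop_zero
    simp at this

/-- at most exponential growth: a logarithmically stronger condition on the coefficients -/
theorem sharp (μ : ℕ → ℝ) (Θ : ℝ → ℝ) (hpos : ∀ i, 0 < μ i) (hmono : Monotone μ)
    (hlim : Tendsto μ atTop atTop) (C : ℝ) (hC : ∀ i, μ (i+1) ≤ C * μ i) (hΘ : Monotone Θ)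
    (hΘ1 : ∀ t, 1 ≤ Θ t) (hns : ¬ Summable (fun q : ℕ => (Θ ((2:ℝ)^q))⁻¹)) :
    Fails μ (fun i => Θ (μ i)) := by
  classical
  have hC1 : 1 ≤ C := by
    have h1 := hmono (Nat.le_succ 0)
    have h2 := hC 0
    have h3 := hpos 0
    by_contra hc
    push Not at hc
    have : C * μ 0 < 1 * μ 0 := mul_lt_mul_of_pos_right hc h3
    simp only [Nat.succ_eq_add_one, zero_add] at h1 h2
    linarith
  obtain ⟨e, he⟩ : ∃ e : ℕ, 2 * C ≤ (2:ℝ)^(e+1) := by
    obtain ⟨e, he⟩ := pow_unbounded_of_one_lt (2 * C) (show (1:ℝ) < 2 by norm_num)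
    exact ⟨e, he.le.trans (pow_le_pow_right₀ (by norm_num) (by omega))⟩
  obtain ⟨D, hD⟩ : ∃ D : ℝ, D = (2:ℝ)^(e+1) := ⟨_, rfl⟩
  have hD1 : 1 < D := by rw [hD]; exact one_lt_pow₀ (by norm_num) (by omega)
  have hD0 : 0 < D := by linarith
  obtain ⟨q0, hq0⟩ := pow_unbounded_of_one_lt (max (μ 0) 1) hD1
  have hex : ∀ q, ∃ i, D^(q + q0) ≤ μ i := fun q => (hlim.eventually_ge_atTop _).exists
  let r : ℕ → ℕ := fun q => Nat.find (hex q)
  have hr1 : ∀ q, D^(q+q0) ≤ μ (r q) := fun q => Nat.find_spec (hex q)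
  have hr2 : ∀ q, μ (r q) ≤ C * D^(q+q0) := by
    intro q
    have h0 : r q ≠ 0 := by
      intro h0
      have h1 := hr1 q
      rw [h0] at h1
      have h2 : D^q0 ≤ D^(q+q0) := pow_le_pow_right₀ hD1.le (by omega)
      have h3 := le_max_left (μ 0) 1
      linarith
    obtain ⟨p, hp⟩ : ∃ p, r q = p + 1 := ⟨r q - 1, by omega⟩
    have h1 : μ p < D^(q+q0) := by
      have := Nat.find_min (hex q) (m := p) (by
        show p < r q
        omega)
      linarith
    rw [hp]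
    exact (hC p).trans (mul_le_mul_of_nonneg_left h1.le (by linarith))
  have hr3 : ∀ q, 2 * μ (r q) ≤ μ (r (q+1)) := by
    intro q
    have h1 := hr1 (q+1)
    have h2 := hr2 q
    have h3 : D^(q+1+q0) = D * D^(q+q0) := by
      rw [← pow_succ']
      congr 1
      omega
    have he' : 2 * C ≤ D := by
      rw [hD]
      exact he
    have h4 : 2 * C * D^(q+q0) ≤ D * D^(q+q0) :=
      mul_le_mul_of_nonneg_right he' (by positivity)
    rw [h3] at h1
    linarith
  refine main μ _ hpos hmono hlim (fun _ => hΘ1 _) r (strictMono_nat_of_lt_succ fun q => ?_) ?_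
    hr3 ?_
  · by_contra hc
    push Not at hc
    have h1 := hmono hc
    have h2 := hr3 q
    have h3 := hpos (r q)
    linarith
  · refine le_trans ?_ (hr1 0)
    rw [zero_add]
    exact (le_max_right (μ 0) 1).trans hq0.le
  · -- non summability
    intro hs
    apply hns
    have hΘ0 : ∀ t, 0 < Θ t := fun t => lt_of_lt_of_le one_pos (hΘ1 t)
    -- f n = 1 / Θ (2 ^ n)
    have hf : ∀ n n' : ℕ, n ≤ n' → (Θ ((2:ℝ)^n'))⁻¹ ≤ (Θ ((2:ℝ)^n))⁻¹ := by
      intro n n' h
      have := hΘ (pow_le_pow_right₀ (show (1:ℝ) ≤ 2 by norm_num) h)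
      exact inv_anti₀ (hΘ0 _) this
    have h1 : Summable (fun q : ℕ => (Θ ((2:ℝ)^((e+1)*(q + (q0+1)))))⁻¹) := by
      refine Summable.of_nonneg_of_le (fun q => (inv_pos.2 (hΘ0 _)).le) (fun q => ?_) hs
      apply inv_anti₀ (hΘ0 _)
      apply hΘ
      refine (hr2 q).trans ?_
      have h2 : C ≤ D := by
        rw [hD]
        linarith
      have h3 : (2:ℝ)^((e+1)*(q+(q0+1))) = D * D^(q+q0) := by
        rw [hD, ← pow_succ', ← pow_mul]
        congr 1
      rw [h3]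
      gcongr
    have h2 : Summable (fun q : ℕ => (Θ ((2:ℝ)^((e+1)*q)))⁻¹) := (summable_nat_add_iff (q0+1)).1 h1
    refine summable_of_sum_range_le (c := (e+1) * ∑' q : ℕ, (Θ ((2:ℝ)^((e+1)*q)))⁻¹)
      (fun n => (inv_pos.2 (hΘ0 _)).le) (fun n => ?_)
    calc ∑ i ∈ Finset.range n, (Θ ((2:ℝ)^i))⁻¹
        ≤ ∑ i ∈ Finset.range (n*(e+1)), (Θ ((2:ℝ)^i))⁻¹ := by
          apply Finset.sum_le_sum_of_subset_of_nonneg
          · exact Finset.range_mono (Nat.le_mul_of_pos_right n (by omega))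
          · intro i _ _
            exact (inv_pos.2 (hΘ0 _)).le
      _ = ∑ u ∈ Finset.range n, ∑ v ∈ Finset.range (e+1), (Θ ((2:ℝ)^(u*(e+1)+v)))⁻¹ :=
          sum_range_mul (fun i => (Θ ((2:ℝ)^i))⁻¹) n (e+1)
      _ ≤ ∑ u ∈ Finset.range n, ((e:ℝ)+1) * (Θ ((2:ℝ)^((e+1)*u)))⁻¹ := by
          refine Finset.sum_le_sum fun u _ => ?_
          refine (Finset.sum_le_card_nsmul _ _ _ (fun v _ => hf ((e+1)*u) _ (by
            rw [mul_comm]; exact Nat.le_add_right _ _))).trans ?_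
          rw [Finset.card_range, nsmul_eq_mul]
          push_cast
          exact le_rfl
      _ = ((e:ℝ)+1) * ∑ u ∈ Finset.range n, (Θ ((2:ℝ)^((e+1)*u)))⁻¹ := by rw [Finset.mul_sum]
      _ ≤ _ := by
          gcongr
          exact h2.sum_le_tsum _ (fun _ _ => (inv_pos.2 (hΘ0 _)).le)

end Pool.Agent.Y259.PF
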